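import Mathlib

/-!
# MP_de0e04: the count of the rows in an extremal state (helper20)

`KK`: the positive circuits of the rows; `T K`: the elements of the class which are hit first.
-/

set_option autoImplicit false

namespace Pool.Agent.GC2

open Finset

/-- a family of `M` sets with `a` elements inside `{0, .., n-1}`, pairwise meeting in at most `i`
points -/
def Fam (n a i M : ℕ) : Prop := ∃ F : Finset (Finset ℕ), F.card = M ∧
  (∀ A ∈ F, A ⊆ range n ∧ A.card = a) ∧ ∀ A ∈ F, ∀ B ∈ F, A ≠ B → (A ∩ B).card ≤ i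

/-- the data of the count: `m` rows, circuits of size `a`, hitting sets in an `n`-set -/
structure Cnt (a m n N : ℕ) : Prop where
  one : 1 ≤ N
  le : m ≤ a * N
  fam : ∀ i, 1 ≤ i → i < a → ∃ M : ℕ, N * ∏ l ∈ Ico 1 i, (m - l * N) ≤ M * ∏ l ∈ Ico 1 i, (a - l) ∧
    Fam n a i M

theorem fam_of {β : Type*} [DecidableEq β] {S : Finset β} {n a i : ℕ} (hS : S.card ≤ n)
    (F : Finset (Finset β)) (h1 : ∀ A ∈ F, A ⊆ S ∧ A.card = a)
    (h2 : ∀ A ∈ F, ∀ B ∈ F, A ≠ B → (A ∩ B).card ≤ i) : Fam n a i F.card := by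
  classical
  obtain ⟨e, he⟩ : ∃ e : β → ℕ, Set.InjOn e (S : Set β) ∧ ∀ x ∈ S, e x < n := by
    let f := S.equivFin
    refine ⟨fun x => if h : x ∈ S then (f ⟨x, h⟩ : ℕ) else 0, ?_, ?_⟩
    · intro x hx y hy hxy
      have hx' : x ∈ S := hx
      have hy' : y ∈ S := hy
      simp only [hx', hy', dif_pos] at hxy
      have := f.injective (Fin.ext hxy)
      exact congrArg Subtype.val this
    · intro x hx
      simp only [hx, dif_pos]
      exact lt_of_lt_of_le (f ⟨x, hx⟩).2 hS
  obtain ⟨he1, he2⟩ := he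
  have himg : ∀ A ∈ F, Set.InjOn e (A : Set β) := fun A hA =>
    he1.mono (by exact_mod_cast (h1 A hA).1)
  have hinj : Set.InjOn (fun A : Finset β => A.image e) (F : Set (Finset β)) := by
    intro A hA B hB hAB
    have hA' : A ∈ F := hA
    have hB' : B ∈ F := hB
    have key : ∀ A ∈ F, ∀ B ∈ F, A.image e = B.image e → A ⊆ B := by
      intro A hA B hB hAB x hx
      have h3 : e x ∈ B.image e := by
        rw [← hAB]
        exact mem_image_of_mem e hx
      obtain ⟨y, hy, hxy⟩ := mem_image.mp h3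
      have : y = x := he1 (by exact_mod_cast (h1 B hB).1 hy) (by exact_mod_cast (h1 A hA).1 hx) hxy
      rw [← this]
      exact hy
    exact Subset.antisymm (key A hA' B hB' hAB) (key B hB' A hA' hAB.symm)
  refine ⟨F.image (fun A => A.image e), card_image_of_injOn hinj, ?_, ?_⟩
  · intro A hA
    obtain ⟨A', hA', rfl⟩ := mem_image.mp hA
    refine ⟨?_, ?_⟩
    · intro y hy
      obtain ⟨x, hx, rfl⟩ := mem_image.mp hy
      exact mem_range.mpr (he2 x ((h1 A' hA').1 hx))
    · rw [card_image_of_injOn (himg A' hA')]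
      exact (h1 A' hA').2
  · intro A hA B hB hAB
    obtain ⟨A', hA', rfl⟩ := mem_image.mp hA
    obtain ⟨B', hB', rfl⟩ := mem_image.mp hB
    have hne : A' ≠ B' := fun h => hAB (by rw [h])
    have hsub : A'.image e ∩ B'.image e ⊆ (A' ∩ B').image e := by
      intro y hy
      obtain ⟨hy1, hy2⟩ := mem_inter.mp hy
      obtain ⟨x, hx, rfl⟩ := mem_image.mp hy1
      obtain ⟨z, hz, hzx⟩ := mem_image.mp hy2
      have : z = x := he1 (by exact_mod_cast (h1 B' hB').1 hz)
        (by exact_mod_cast (h1 A' hA').1 hx) hzx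
      exact mem_image_of_mem e (mem_inter.mpr ⟨hx, this ▸ hz⟩)
    calc _ ≤ ((A' ∩ B').image e).card := card_le_card hsub
      _ ≤ (A' ∩ B').card := card_image_le
      _ ≤ i := h2 A' hA' B' hB' hne

section
variable {α β : Type*} [DecidableEq α] [DecidableEq β]

/-- the circuits which contain `C` -/
def Ms (KK : Finset (Finset α)) (C : Finset α) : Finset (Finset α) := KK.filter (fun K => C ⊆ K)

/-- the completions of `C` -/
def Cp (P : Finset α) (KK : Finset (Finset α)) (C : Finset α) : Finset α :=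
  P.filter (fun y => y ∉ C ∧ insert y C ∈ KK)

variable {P : Finset α} {a : ℕ} {KK : Finset (Finset α)}

theorem card_Cp_eq (hK : ∀ K ∈ KK, K ⊆ P ∧ K.card = a) {C : Finset α} (hC : C.card + 1 = a) :
    (Cp P KK C).card = (Ms KK C).card := by
  apply card_bij (fun y _ => insert y C)
  · intro y hy
    simp only [Cp, mem_filter] at hy
    simp only [Ms, mem_filter]
    exact ⟨hy.2.2, subset_insert y C⟩
  · intro y hy z hz h
    simp only [Cp, mem_filter] at hy hz
    have h1 : y ∈ insert z C := by rw [← h]; exact mem_insert_self y C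
    rcases mem_insert.mp h1 with h2 | h2
    · exact h2
    · exact absurd h2 hy.2.1
  · intro K hKm
    simp only [Ms, mem_filter] at hKm
    have h1 := (hK K hKm.1).2
    have h2 : (K \ C).card = 1 := by
      rw [card_sdiff_of_subset hKm.2]
      omega
    obtain ⟨y, hy⟩ := card_eq_one.mp h2
    have h3 : y ∈ K \ C := by rw [hy]; exact mem_singleton_self y
    have h4 : insert y C = K := by
      apply eq_of_subset_of_card_le
      · exact insert_subset (mem_sdiff.mp h3).1 hKm.2
      · rw [card_insert_of_notMem (mem_sdiff.mp h3).2]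
        omega
    refine ⟨y, ?_, h4⟩
    simp only [Cp, mem_filter]
    exact ⟨(hK K hKm.1).1 (mem_sdiff.mp h3).1, (mem_sdiff.mp h3).2, by rw [h4]; exact hKm.1⟩

/-- (A): the completions of the `K - x` -/
theorem sum_Cp (hK : ∀ K ∈ KK, K ⊆ P ∧ K.card = a)
    (hex : ∀ K ∈ KK, ∀ y ∈ P, y ∉ K → ∃! x, x ∈ K ∧ insert y (K.erase x) ∈ KK)
    {K : Finset α} (hKK : K ∈ KK) : ∑ x ∈ K, (Cp P KK (K.erase x)).card = P.card := by
  have h1 : ∀ x ∈ K, (Cp P KK (K.erase x)).card =
      ∑ y ∈ P, if y ∉ K.erase x ∧ insert y (K.erase x) ∈ KK then 1 else 0 := by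
    intro x _
    rw [Cp, card_filter]
  rw [sum_congr rfl h1, sum_comm]
  rw [card_eq_sum_ones]
  apply sum_congr rfl
  intro y hy
  rw [← card_filter]
  by_cases hyK : y ∈ K
  · have : K.filter (fun x => y ∉ K.erase x ∧ insert y (K.erase x) ∈ KK) = {y} := by
      ext x
      simp only [mem_filter, mem_singleton, mem_erase, not_and]
      constructor
      · rintro ⟨hx, h2, _⟩
        by_contra h3
        exact h2 (fun h => h3 h.symm) hyK
      · rintro rfl
        refine ⟨hyK, fun h => absurd rfl h, ?_⟩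
        rw [insert_erase hyK]
        exact hKK
    rw [this, card_singleton]
  · obtain ⟨x, hx, hu⟩ := hex K hKK y hy hyK
    have : K.filter (fun x => y ∉ K.erase x ∧ insert y (K.erase x) ∈ KK) = {x} := by
      ext z
      simp only [mem_filter, mem_singleton, mem_erase, not_and]
      constructor
      · rintro ⟨hz, _, h3⟩
        exact hu z ⟨hz, h3⟩
      · rintro rfl
        exact ⟨hx.1, fun _ => hyK, hx.2⟩
    rw [this, card_singleton]

/-- (D): the exchange is injective -/
theorem sum_le_Ms (hK : ∀ K ∈ KK, K ⊆ P ∧ K.card = a)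
    (hex : ∀ K ∈ KK, ∀ y ∈ P, y ∉ K → ∃! x, x ∈ K ∧ insert y (K.erase x) ∈ KK)
    {C : Finset α} {x : α} (hx : x ∈ C) :
    ∑ K ∈ Ms KK C, (Cp P KK (K.erase x)).card ≤ (Ms KK (C.erase x)).card := by
  rw [← card_sigma]
  apply card_le_card_of_injOn (fun q => insert q.2 (q.1.erase x))
  · intro q hq
    have hq' := mem_sigma.mp (mem_coe.mp hq)
    simp only [Ms, mem_filter] at hq'
    have h2 := hq'.2
    simp only [Cp, mem_filter] at h2
    exact mem_coe.mpr (mem_filter.mpr ⟨h2.2.2, (erase_subset_erase x hq'.1.2).trans (subset_insert _ _)⟩)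
  · rintro ⟨K1, z1⟩ h1 ⟨K2, z2⟩ h2 h
    have h1' := mem_sigma.mp (mem_coe.mp h1)
    have h2' := mem_sigma.mp (mem_coe.mp h2)
    simp only [Ms, Cp, mem_filter] at h1' h2'
    simp only at h
    obtain ⟨⟨hK1, hC1⟩, hz1, hz1', hz1''⟩ := h1'
    obtain ⟨⟨hK2, hC2⟩, hz2, hz2', hz2''⟩ := h2'
    have hx1 : x ∈ K1 := hC1 hx
    have hx2 : x ∈ K2 := hC2 hx
    by_cases hxz : z1 = x
    · subst hxz
      have h3 : z1 ∈ insert z2 (K2.erase z1) := by rw [← h]; exact mem_insert_self _ _
      have h4 : z1 = z2 := by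
        rcases mem_insert.mp h3 with h5 | h5
        · exact h5
        · exact absurd rfl (mem_erase.mp h5).1
      subst h4
      rw [insert_erase hx1, insert_erase hx2] at h
      subst h
      rfl
    · have hxz2 : z2 ≠ x := by
        intro h3
        subst h3
        have h4 : z2 ∈ insert z1 (K1.erase z2) := by rw [h]; exact mem_insert_self _ _
        rcases mem_insert.mp h4 with h5 | h5
        · exact hxz h5.symm
        · exact absurd rfl (mem_erase.mp h5).1
      have hz1K : z1 ∉ K1 := fun h3 => hz1' (mem_erase.mpr ⟨hxz, h3⟩)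
      have hz2K : z2 ∉ K2 := fun h3 => hz2' (mem_erase.mpr ⟨hxz2, h3⟩)
      have hxK' : x ∉ insert z1 (K1.erase x) := by
        intro h3
        rcases mem_insert.mp h3 with h5 | h5
        · exact hxz h5.symm
        · exact absurd rfl (mem_erase.mp h5).1
      have e1 : insert x ((insert z1 (K1.erase x)).erase z1) = K1 := by
        rw [erase_insert hz1', insert_erase hx1]
      have e2 : insert x ((insert z1 (K1.erase x)).erase z2) = K2 := by
        rw [h, erase_insert hz2', insert_erase hx2]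
      obtain ⟨w, _, hw⟩ := hex _ hz1'' x ((hK K1 hK1).1 hx1) hxK'
      have f1 := hw z1 ⟨mem_insert_self _ _, by rw [e1]; exact hK1⟩
      have f2 := hw z2 ⟨by rw [h]; exact mem_insert_self _ _, by rw [e2]; exact hK2⟩
      have f3 : z1 = z2 := f1.trans f2.symm
      subst f3
      have f4 : K1 = K2 := by rw [← e1, ← e2]
      subst f4
      rfl

theorem count_step (hK : ∀ K ∈ KK, K ⊆ P ∧ K.card = a)
    (hex : ∀ K ∈ KK, ∀ y ∈ P, y ∉ K → ∃! x, x ∈ K ∧ insert y (K.erase x) ∈ KK)
    {N : ℕ} (hN : ∀ K ∈ KK, ∀ x ∈ K, (Cp P KK (K.erase x)).card ≤ N)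
    {C : Finset α} {i : ℕ} (hC : C.card + i = a) (hC0 : C.Nonempty) :
    ∃ x ∈ C, (Ms KK C).card * (P.card - i * N) ≤ (Ms KK (C.erase x)).card * C.card := by
  have h1 : ∑ x ∈ C, (Ms KK (C.erase x)).card ≥ (Ms KK C).card * (P.card - i * N) := by
    calc ∑ x ∈ C, (Ms KK (C.erase x)).card ≥
        ∑ x ∈ C, ∑ K ∈ Ms KK C, (Cp P KK (K.erase x)).card :=
          sum_le_sum fun x hx => sum_le_Ms hK hex hx
      _ = ∑ K ∈ Ms KK C, ∑ x ∈ C, (Cp P KK (K.erase x)).card := sum_comm
      _ ≥ ∑ K ∈ Ms KK C, (P.card - i * N) := by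
          apply sum_le_sum
          intro K hKm
          simp only [Ms, mem_filter] at hKm
          have h2 := sum_Cp hK hex hKm.1
          have h3 : ∑ x ∈ K, (Cp P KK (K.erase x)).card =
              ∑ x ∈ K \ C, (Cp P KK (K.erase x)).card + ∑ x ∈ C, (Cp P KK (K.erase x)).card :=
            (sum_sdiff hKm.2).symm
          have h4 : ∑ x ∈ K \ C, (Cp P KK (K.erase x)).card ≤ (K \ C).card * N := by
            rw [← smul_eq_mul]
            exact sum_le_card_nsmul _ _ _ fun x hx => hN K hKm.1 x (mem_sdiff.mp hx).1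
          have h5 : (K \ C).card = i := by
            rw [card_sdiff_of_subset hKm.2, (hK K hKm.1).2]
            omega
          rw [h5] at h4
          omega
      _ = (Ms KK C).card * (P.card - i * N) := by rw [sum_const, smul_eq_mul]
  by_contra hcon
  push Not at hcon
  have h2 : ∑ x ∈ C, (Ms KK (C.erase x)).card * C.card <
      ∑ _x ∈ C, (Ms KK C).card * (P.card - i * N) := sum_lt_sum_of_nonempty hC0 hcon
  rw [← sum_mul, sum_const, smul_eq_mul] at h2
  have h3 : 0 < C.card := hC0.card_pos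
  have h4 : (∑ x ∈ C, (Ms KK (C.erase x)).card) < (Ms KK C).card * (P.card - i * N) := by
    rw [mul_comm] at h2
    exact lt_of_mul_lt_mul_left h2 h3.le
  omega

theorem count (hK : ∀ K ∈ KK, K ⊆ P ∧ K.card = a) (hne : KK.Nonempty) (ha : 1 ≤ a)
    (hex : ∀ K ∈ KK, ∀ y ∈ P, y ∉ K → ∃! x, x ∈ K ∧ insert y (K.erase x) ∈ KK)
    {n : ℕ} {S : Finset β} (hS : S.card ≤ n) (T : Finset α → Finset β)
    (hT : ∀ K ∈ KK, T K ⊆ S ∧ a ≤ (T K).card)
    (hTT : ∀ K ∈ KK, ∀ K' ∈ KK, K ≠ K' → (T K ∩ T K').card ≤ (K' \ K).card) :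
    ∃ N, Cnt a P.card n N := by
  classical
  -- the largest number of completions
  let X : Finset ((_ : Finset α) × α) := KK.sigma (fun K => K)
  have hXne : X.Nonempty := by
    obtain ⟨K, hKK⟩ := hne
    have : 0 < K.card := by rw [(hK K hKK).2]; omega
    obtain ⟨x, hx⟩ := card_pos.mp this
    exact ⟨⟨K, x⟩, mem_sigma.mpr ⟨hKK, hx⟩⟩
  obtain ⟨⟨K0, x0⟩, h0, hmax⟩ := exists_max_image X
    (fun q => (Cp P KK (q.1.erase q.2)).card) hXne
  have h0' := mem_sigma.mp h0
  simp only at h0' hmax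
  set N := (Cp P KK (K0.erase x0)).card with hNdef
  have hN : ∀ K ∈ KK, ∀ x ∈ K, (Cp P KK (K.erase x)).card ≤ N := fun K hKK x hx =>
    hmax ⟨K, x⟩ (mem_sigma.mpr ⟨hKK, hx⟩)
  have hle : P.card ≤ a * N := by
    rw [← sum_Cp hK hex h0'.1, ← (hK K0 h0'.1).2, ← smul_eq_mul]
    exact sum_le_card_nsmul _ _ _ fun x hx => hN K0 h0'.1 x hx
  have hN1 : 1 ≤ N := by
    rw [hNdef]
    apply card_pos.mpr
    refine ⟨x0, ?_⟩
    simp only [Cp, mem_filter]
    refine ⟨(hK K0 h0'.1).1 h0'.2, notMem_erase _ _, ?_⟩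
    rw [insert_erase h0'.2]
    exact h0'.1
  -- induction
  have key : ∀ i, 1 ≤ i → i < a → ∃ C : Finset α, C.card + i = a ∧
      N * ∏ l ∈ Ico 1 i, (P.card - l * N) ≤ (Ms KK C).card * ∏ l ∈ Ico 1 i, (a - l) := by
    intro i hi
    induction i, hi using Nat.le_induction with
    | base =>
      intro _
      refine ⟨K0.erase x0, ?_, ?_⟩
      · rw [card_erase_of_mem h0'.2, (hK K0 h0'.1).2]
        omega
      · rw [← card_Cp_eq hK (by rw [card_erase_of_mem h0'.2, (hK K0 h0'.1).2]; omega)]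
        simp [← hNdef]
    | succ i hi ih =>
      intro hia
      obtain ⟨C, hC, hle2⟩ := ih (by omega)
      have hC0 : C.Nonempty := by
        rw [← card_pos]
        omega
      obtain ⟨x, hx, hx2⟩ := count_step hK hex hN hC hC0
      refine ⟨C.erase x, ?_, ?_⟩
      · rw [card_erase_of_mem hx]
        have := hC0.card_pos
        omega
      · rw [prod_Ico_succ_top hi, prod_Ico_succ_top hi, ← mul_assoc, ← mul_assoc]
        calc N * (∏ l ∈ Ico 1 i, (P.card - l * N)) * (P.card - i * N) ≤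
            (Ms KK C).card * (∏ l ∈ Ico 1 i, (a - l)) * (P.card - i * N) :=
              Nat.mul_le_mul_right _ hle2
          _ = (Ms KK C).card * (P.card - i * N) * ∏ l ∈ Ico 1 i, (a - l) := by ring
          _ ≤ (Ms KK (C.erase x)).card * C.card * ∏ l ∈ Ico 1 i, (a - l) :=
              Nat.mul_le_mul_right _ hx2
          _ = (Ms KK (C.erase x)).card * (∏ l ∈ Ico 1 i, (a - l)) * (a - i) := by
              have : C.card = a - i := by omega
              rw [this]
              ring
  refine ⟨N, hN1, hle, ?_⟩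
  intro i hi hia
  obtain ⟨C, hC, hle2⟩ := key i hi hia
  refine ⟨(Ms KK C).card, hle2, ?_⟩
  -- the family of the hitting sets
  have hsub : ∀ K ∈ KK, ∃ U : Finset β, U ⊆ T K ∧ U.card = a := fun K hKK =>
    exists_subset_card_eq (hT K hKK).2
  choose! U hU using hsub
  have hmem : ∀ K ∈ Ms KK C, K ∈ KK := fun K h => (mem_filter.mp h).1
  have hdist : ∀ K ∈ Ms KK C, ∀ K' ∈ Ms KK C, K ≠ K' → (U K ∩ U K').card ≤ i := by
    intro K h K' h' hne
    calc (U K ∩ U K').card ≤ (T K ∩ T K').card :=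
          card_le_card (inter_subset_inter (hU K (hmem K h)).1 (hU K' (hmem K' h')).1)
      _ ≤ (K' \ K).card := hTT K (hmem K h) K' (hmem K' h') hne
      _ ≤ (K' \ C).card := card_le_card (sdiff_subset_sdiff (Subset.refl _) (mem_filter.mp h).2)
      _ = i := by
          rw [card_sdiff_of_subset (mem_filter.mp h').2, (hK K' (hmem K' h')).2]
          omega
  have hinj : Set.InjOn U (Ms KK C : Set (Finset α)) := by
    intro K h K' h' he
    by_contra hne
    have h1 := hdist K h K' h' hne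
    rw [he, inter_self, (hU K' (hmem K' h')).2] at h1
    omega
  have h3 : ((Ms KK C).image U).card = (Ms KK C).card := card_image_of_injOn hinj
  rw [← h3]
  apply fam_of hS
  · intro A hA
    obtain ⟨K, hKm, rfl⟩ := mem_image.mp hA
    exact ⟨(hU K (hmem K hKm)).1.trans (hT K (hmem K hKm)).1, (hU K (hmem K hKm)).2⟩
  · intro A hA B hB hAB
    obtain ⟨K, hKm, rfl⟩ := mem_image.mp hA
    obtain ⟨K', hKm', rfl⟩ := mem_image.mp hB
    exact hdist K hKm K' hKm' (fun h => hAB (by rw [h]))

end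

end Pool.Agent.GC2
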