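import Pool.Agent.Lib_helper20.GC2.Rule

/-!
# MP_de0e04: exponential thresholds (helper20)
-/

set_option autoImplicit false

namespace Pool.Agent.GC2

/-- `(1 + t)^(-g) >= 1 - g t` -/
theorem inv_pow_ge {t : ℝ} (ht : 0 ≤ t) (g : ℕ) : 1 - g * t ≤ ((1 + t) ^ g)⁻¹ := by
  have h1 : 0 < 1 + t := by linarith
  have h2 : 0 < (1 + t) ^ g := pow_pos h1 g
  have h3 : (1 - g * t) * (1 + t) ^ g ≤ 1 := by
    induction g with
    | zero => simp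
    | succ g ih =>
      have h4 : 0 < (1 + t) ^ g := pow_pos h1 g
      have ih' := ih h4
      have h5 : (1 - ((g + 1 : ℕ) : ℝ) * t) * (1 + t) ≤ 1 - g * t := by
        push_cast
        nlinarith [Nat.cast_nonneg (α := ℝ) g, mul_nonneg ht ht]
      calc (1 - ((g + 1 : ℕ) : ℝ) * t) * (1 + t) ^ (g + 1)
          = ((1 - ((g + 1 : ℕ) : ℝ) * t) * (1 + t)) * (1 + t) ^ g := by ring
        _ ≤ (1 - g * t) * (1 + t) ^ g := mul_le_mul_of_nonneg_right h5 h4.le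
        _ ≤ 1 := ih'
  rw [← one_div, le_div_iff₀ h2]
  exact h3

/-- second order Bernoulli -/
theorem pow_ge_two {t : ℝ} (ht : 0 ≤ t) (g : ℕ) :
    1 + g * t + g * ((g : ℝ) - 1) / 2 * t ^ 2 ≤ (1 + t) ^ g := by
  induction g with
  | zero => simp
  | succ g ih =>
    rw [pow_succ]
    have h1 : (1 + g * t + g * ((g : ℝ) - 1) / 2 * t ^ 2) * (1 + t) ≤ (1 + t) ^ g * (1 + t) :=
      mul_le_mul_of_nonneg_right ih (by linarith)
    refine le_trans ?_ h1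
    push_cast
    have h2 : 0 ≤ (g : ℝ) * ((g : ℝ) - 1) := by
      rcases Nat.eq_zero_or_pos g with h0 | h0
      · subst h0
        simp
      · have : (1 : ℝ) ≤ g := by exact_mod_cast h0
        have h3 : (0 : ℝ) ≤ (g : ℝ) - 1 := by linarith
        positivity
    have h3 : 0 ≤ (g : ℝ) * ((g : ℝ) - 1) / 2 * t ^ 2 * t := by positivity
    nlinarith

/-- the inequality of the open moves for `Z - B` -/
theorem exp_ineq {d : ℕ} {B Z : ℝ} (hZ : 0 ≤ Z)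
    (hB : B = 0 ∨ ((((d : ℝ) + 2) ^ 2 / 4 ≤ Z) ∧
      B ≤ (((d : ℝ) + 2) ^ 2 - 6 * ((d : ℝ) + 2) + 7) / 8))
    (j : ℕ) (hj : j < d) :
    ((j : ℝ) + 1) * (Z - B) ≤ ((j : ℝ) + 2) *
      (Z * ((1 + 4 / ((d : ℝ) + 2) ^ 2) ^ (d - j))⁻¹ - B) + j * (j + 1) := by
  set p : ℝ := (d : ℝ) + 2 with hp
  have hp0 : 0 < p := by positivity
  have h1 := inv_pow_ge (t := 4 / p ^ 2) (by positivity) (d - j)
  have e1 : ((d - j : ℕ) : ℝ) = p - 2 - j := by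
    rw [Nat.cast_sub hj.le, hp]
    ring
  rw [e1] at h1
  have h2 : Z * (1 - (p - 2 - j) * (4 / p ^ 2)) ≤ Z * ((1 + 4 / p ^ 2) ^ (d - j))⁻¹ :=
    mul_le_mul_of_nonneg_left h1 hZ
  -- `Z (p - 2 s)^2 / p^2 - B + j (j+1) >= 0`, `s = j + 2`
  have h3 : 0 ≤ Z * ((p - 2 * (j + 2)) ^ 2 / p ^ 2) - B + j * (j + 1) := by
    rcases hB with h0 | ⟨h4, h5⟩
    · rw [h0, sub_zero]
      positivity
    · have h6 : (p ^ 2 / 4) * ((p - 2 * (j + 2)) ^ 2 / p ^ 2) ≤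
          Z * ((p - 2 * (j + 2)) ^ 2 / p ^ 2) := mul_le_mul_of_nonneg_right h4 (by positivity)
      have h7 : (p ^ 2 / 4) * ((p - 2 * (j + 2)) ^ 2 / p ^ 2) = (p - 2 * (j + 2)) ^ 2 / 4 := by
        field_simp
      nlinarith [sq_nonneg (4 * ((j : ℝ) + 2) - (p + 3))]
  have h8 : ((j : ℝ) + 2) * (Z * (1 - (p - 2 - j) * (4 / p ^ 2))) - (j + 1) * Z =
      Z * ((p - 2 * (j + 2)) ^ 2 / p ^ 2) := by
    field_simp
    ring
  have h9 : ((j : ℝ) + 2) * (Z * (1 - (p - 2 - j) * (4 / p ^ 2))) ≤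
      ((j : ℝ) + 2) * (Z * ((1 + 4 / p ^ 2) ^ (d - j))⁻¹) :=
    mul_le_mul_of_nonneg_left h2 (by positivity)
  nlinarith

/-- the exponential extension -/
theorem rule_exp {d : ℕ} {U0 : ℤ → ℕ} (h0 : Rule d U0) (D1 : ℕ) {Y B : ℝ} (hY : 0 ≤ Y)
    (hB : B = 0 ∨ ((((d : ℝ) + 2) ^ 2 / 4 ≤ Y) ∧
      B ≤ (((d : ℝ) + 2) ^ 2 - 6 * ((d : ℝ) + 2) + 7) / 8))
    (h1 : ∀ h : ℕ, h ≤ d → Y * ((1 + 4 / ((d : ℝ) + 2) ^ 2) ^ h)⁻¹ - B ≤ U0 ((D1 : ℤ) - h))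
    (h2 : 0 ≤ Y * ((1 + 4 / ((d : ℝ) + 2) ^ 2) ^ d)⁻¹ - B) :
    ∃ U, Rule d U ∧ (∀ D : ℤ, U0 D ≤ U D) ∧ ∀ (h m : ℕ), 1 ≤ h →
      (m : ℝ) ≤ Y * (1 + 4 / ((d : ℝ) + 2) ^ 2) ^ h - B → m ≤ U ((D1 : ℤ) + h) := by
  set r : ℝ := 1 + 4 / ((d : ℝ) + 2) ^ 2 with hr
  have hr1 : 1 ≤ r := by
    rw [hr]
    have : 0 ≤ 4 / ((d : ℝ) + 2) ^ 2 := by positivity
    linarith
  have hr0 : 0 < r := by linarith
  let V : ℤ → ℝ := fun D => Y * r ^ (D - D1) - B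
  have hmono : Monotone V := by
    intro D D' h
    have : r ^ (D - D1) ≤ r ^ (D' - D1) := zpow_le_zpow_right₀ hr1 (by omega)
    have := mul_le_mul_of_nonneg_left this hY
    show Y * r ^ (D - D1) - B ≤ Y * r ^ (D' - D1) - B
    linarith
  have hV0 : ∀ D, (D1 : ℤ) - d ≤ D → 0 ≤ V D := by
    intro D hD
    refine le_trans ?_ (hmono hD)
    show 0 ≤ Y * r ^ ((D1 : ℤ) - d - D1) - B
    have e : (D1 : ℤ) - d - D1 = -(d : ℤ) := by ring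
    rw [e, zpow_neg, zpow_natCast]
    exact h2
  have hext := rule_ext h0 (D1 : ℤ) (by positivity) V hmono ?_ ?_ hV0
  · refine ⟨_, hext, ?_, ?_⟩
    · intro D
      show U0 D ≤ if D ≤ D1 then U0 D else max (U0 D) ⌊V D⌋₊
      split_ifs
      · exact le_rfl
      · exact le_max_left _ _
    · intro h m hh hm
      show m ≤ if (D1 : ℤ) + h ≤ D1 then U0 ((D1 : ℤ) + h) else
        max (U0 ((D1 : ℤ) + h)) ⌊V ((D1 : ℤ) + h)⌋₊
      rw [if_neg (by omega)]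
      apply le_max_of_le_right
      apply Nat.le_floor
      show (m : ℝ) ≤ Y * r ^ ((D1 : ℤ) + h - D1) - B
      have e : (D1 : ℤ) + h - D1 = (h : ℤ) := by ring
      rw [e, zpow_natCast]
      exact hm
  · intro D hD1 hD2
    obtain ⟨h, hh⟩ : ∃ h : ℕ, D = (D1 : ℤ) - h := ⟨((D1 : ℤ) - D).toNat, by omega⟩
    subst hh
    show Y * r ^ ((D1 : ℤ) - h - D1) - B ≤ _
    have e : (D1 : ℤ) - h - D1 = -(h : ℤ) := by ring
    rw [e, zpow_neg, zpow_natCast]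
    exact h1 h (by omega)
  · intro D hD j hj
    show ((j : ℝ) + 1) * (Y * r ^ (D - D1) - B) ≤ (j + 2) * (Y * r ^ (D - d + j - D1) - B) +
      j * (j + 1)
    have hge : 1 ≤ r ^ (D - D1) := one_le_zpow₀ hr1 (by omega)
    have hZY : Y ≤ Y * r ^ (D - D1) := le_mul_of_one_le_right hY hge
    have key := exp_ineq (d := d) (B := B) (Z := Y * r ^ (D - D1)) (by positivity) ?_ j hj
    · have e : r ^ (D - d + j - D1) = r ^ (D - D1) * (r ^ (d - j))⁻¹ := by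
        rw [← zpow_natCast, ← zpow_neg, ← zpow_add₀ hr0.ne']
        congr 1
        have : ((d - j : ℕ) : ℤ) = (d : ℤ) - j := by omega
        rw [this]
        ring
      rw [e, ← mul_assoc]
      exact key
    · rcases hB with h3 | ⟨h3, h4⟩
      · exact Or.inl h3
      · exact Or.inr ⟨h3.trans hZY, h4⟩

end Pool.Agent.GC2
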