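import Pool.Agent.Lib_helper20.GC2.Count

/-!
# MP_de0e04: bounds for the families (helper20)
-/

set_option autoImplicit false

namespace Pool.Agent.GC2

open Finset

/-- the degrees -/
theorem fam_deg {n a i M : ℕ} {F : Finset (Finset ℕ)} (hM : F.card = M)
    (h1 : ∀ A ∈ F, A ⊆ range n ∧ A.card = a) (h2 : ∀ A ∈ F, ∀ B ∈ F, A ≠ B → (A ∩ B).card ≤ i) :
    ∑ p ∈ range n, (F.filter (fun A => p ∈ A)).card = M * a ∧
    ∑ p ∈ range n, (F.filter (fun A => p ∈ A)).card ^ 2 ≤ M * (a + (M - 1) * i) := by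
  constructor
  · calc ∑ p ∈ range n, (F.filter (fun A => p ∈ A)).card
        = ∑ p ∈ range n, ∑ A ∈ F, if p ∈ A then 1 else 0 := by
          apply sum_congr rfl
          intro p _
          rw [card_filter]
      _ = ∑ A ∈ F, ∑ p ∈ range n, if p ∈ A then 1 else 0 := sum_comm
      _ = ∑ A ∈ F, a := by
          apply sum_congr rfl
          intro A hA
          rw [← card_filter, ← (h1 A hA).2]
          congr 1
          ext p
          simp only [mem_filter]
          exact ⟨fun h => h.2, fun h => ⟨(h1 A hA).1 h, h⟩⟩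
      _ = M * a := by rw [sum_const, smul_eq_mul, hM]
  · calc ∑ p ∈ range n, (F.filter (fun A => p ∈ A)).card ^ 2
        = ∑ p ∈ range n, ∑ A ∈ F, ∑ B ∈ F, if p ∈ A ∩ B then 1 else 0 := by
          apply sum_congr rfl
          intro p _
          rw [sq, card_filter, sum_mul_sum]
          apply sum_congr rfl
          intro A _
          apply sum_congr rfl
          intro B _
          by_cases hA : p ∈ A <;> by_cases hB : p ∈ B <;> simp [hA, hB]
      _ = ∑ A ∈ F, ∑ B ∈ F, ∑ p ∈ range n, if p ∈ A ∩ B then 1 else 0 := by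
          rw [sum_comm]
          apply sum_congr rfl
          intro A _
          rw [sum_comm]
      _ = ∑ A ∈ F, ∑ B ∈ F, (A ∩ B).card := by
          apply sum_congr rfl
          intro A hA
          apply sum_congr rfl
          intro B _
          rw [← card_filter]
          congr 1
          ext p
          simp only [mem_filter, mem_inter]
          exact ⟨fun h => h.2, fun h => ⟨(h1 A hA).1 h.1, h⟩⟩
      _ ≤ ∑ A ∈ F, (a + (M - 1) * i) := by
          apply sum_le_sum
          intro A hA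
          rw [← add_sum_erase F _ hA, inter_self, (h1 A hA).2]
          apply Nat.add_le_add_left
          calc ∑ B ∈ F.erase A, (A ∩ B).card ≤ (F.erase A).card • i := by
                apply sum_le_card_nsmul
                intro B hB
                exact h2 A hA B (mem_erase.mp hB).2 (fun h => (mem_erase.mp hB).1 h.symm)
            _ = (M - 1) * i := by rw [card_erase_of_mem hA, smul_eq_mul, hM]
      _ = M * (a + (M - 1) * i) := by rw [sum_const, smul_eq_mul, hM]

/-- the second moment bound -/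
theorem fam_sm {n a i M : ℕ} (h : Fam n a i M) : M * a ^ 2 ≤ n * (a + (M - 1) * i) := by
  obtain ⟨F, hM, h1, h2⟩ := h
  rcases Nat.eq_zero_or_pos M with h0 | h0
  · subst h0
    simp
  obtain ⟨e1, e2⟩ := fam_deg hM h1 h2
  have e3 : (∑ p ∈ range n, (F.filter (fun A => p ∈ A)).card) ^ 2 ≤
      (range n).card * ∑ p ∈ range n, (F.filter (fun A => p ∈ A)).card ^ 2 :=
    sq_sum_le_card_mul_sum_sq
  rw [e1, card_range] at e3
  have e4 : (M * a) ^ 2 ≤ n * (M * (a + (M - 1) * i)) := e3.trans (Nat.mul_le_mul_left _ e2)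
  have e5 : M * (M * a ^ 2) ≤ M * (n * (a + (M - 1) * i)) := by
    calc M * (M * a ^ 2) = (M * a) ^ 2 := by ring
      _ ≤ n * (M * (a + (M - 1) * i)) := e4
      _ = _ := by ring
  exact Nat.le_of_mul_le_mul_left e5 h0

/-- the packing bound -/
theorem fam_pack {n a i M : ℕ} (h : Fam n a i M) : M * a.choose (i + 1) ≤ n.choose (i + 1) := by
  obtain ⟨F, hM, h1, h2⟩ := h
  have e1 : (F.biUnion (fun A => powersetCard (i + 1) A)).card = ∑ A ∈ F, a.choose (i + 1) := by
    rw [card_biUnion]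
    · apply sum_congr rfl
      intro A hA
      rw [card_powersetCard, (h1 A hA).2]
    · intro A hA B hB hAB
      rw [Function.onFun, Finset.disjoint_left]
      intro X hX hX'
      rw [mem_powersetCard] at hX hX'
      have := h2 A hA B hB hAB
      have h3 : X.card ≤ (A ∩ B).card := card_le_card (subset_inter hX.1 hX'.1)
      omega
  have e2 : (F.biUnion (fun A => powersetCard (i + 1) A)).card ≤
      (powersetCard (i + 1) (range n)).card := by
    apply card_le_card
    intro X hX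
    obtain ⟨A, hA, hXA⟩ := mem_biUnion.mp hX
    rw [mem_powersetCard] at hXA ⊢
    exact ⟨hXA.1.trans (h1 A hA).1, hXA.2⟩
  rw [e1, sum_const, smul_eq_mul, hM, card_powersetCard, card_range] at e2
  exact e2

/-- Johnson's bound -/
theorem fam_john {n a i M : ℕ} (h : Fam n (a + 1) (i + 1) M) : ∃ M', Fam (n - 1) a i M' ∧
    M * (a + 1) ≤ n * M' := by
  obtain ⟨F, hM, h1, h2⟩ := h
  obtain ⟨e1, _⟩ := fam_deg hM h1 h2
  rcases Nat.eq_zero_or_pos n with h0 | h0
  · subst h0
    refine ⟨0, ⟨∅, by simp, by simp, by simp⟩, ?_⟩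
    have : M * (a + 1) = 0 := by
      rw [← e1]
      simp
    omega
  obtain ⟨p, hp, hmax⟩ := exists_max_image (range n) (fun p => (F.filter (fun A => p ∈ A)).card)
    ⟨0, mem_range.mpr h0⟩
  set M' := (F.filter (fun A => p ∈ A)).card with hM'
  refine ⟨M', ?_, ?_⟩
  · have hinj : Set.InjOn (fun A : Finset ℕ => A.erase p)
        (F.filter (fun A => p ∈ A) : Finset (Finset ℕ)) := by
      intro A hA B hB hAB
      have hA' := (mem_filter.mp (mem_coe.mp hA)).2
      have hB' := (mem_filter.mp (mem_coe.mp hB)).2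
      simp only at hAB
      rw [← insert_erase hA', ← insert_erase hB', hAB]
    have e3 : ((F.filter (fun A => p ∈ A)).image (fun A => A.erase p)).card = M' :=
      card_image_of_injOn hinj
    rw [← e3]
    apply fam_of (S := (range n).erase p)
    · rw [card_erase_of_mem hp, card_range]
    · intro A hA
      obtain ⟨A', hA', rfl⟩ := mem_image.mp hA
      obtain ⟨hA1, hA2⟩ := mem_filter.mp hA'
      refine ⟨erase_subset_erase p (h1 A' hA1).1, ?_⟩
      rw [card_erase_of_mem hA2, (h1 A' hA1).2]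
      rfl
    · intro A hA B hB hAB
      obtain ⟨A', hA', rfl⟩ := mem_image.mp hA
      obtain ⟨B', hB', rfl⟩ := mem_image.mp hB
      obtain ⟨hA1, hA2⟩ := mem_filter.mp hA'
      obtain ⟨hB1, hB2⟩ := mem_filter.mp hB'
      have hne : A' ≠ B' := fun h => hAB (by rw [h])
      have e4 := h2 A' hA1 B' hB1 hne
      have e5 : A'.erase p ∩ B'.erase p ⊆ (A' ∩ B').erase p := by
        intro x hx
        simp only [mem_inter, mem_erase] at hx ⊢
        exact ⟨hx.1.1, hx.1.2, hx.2.2⟩
      have e6 := card_le_card e5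
      rw [card_erase_of_mem (mem_inter.mpr ⟨hA2, hB2⟩)] at e6
      omega
  · rw [← e1]
    have := sum_le_card_nsmul (range n) (fun p => (F.filter (fun A => p ∈ A)).card) M' hmax
    rw [card_range, smul_eq_mul] at this
    exact this

/-! ### consequences for the count -/

variable {a m n N : ℕ}

/-- `i = 1`, second moment -/
theorem Cnt.sm1 (h : Cnt a m n N) (ha : 2 ≤ a) (hn : n < a ^ 2) :
    N * (a ^ 2 - n) ≤ n * (a - 1) := by
  obtain ⟨M, h1, h2⟩ := h.fam 1 le_rfl (by omega)
  simp only [Ico_self, prod_empty, mul_one] at h1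
  have h3 := fam_sm h2
  have hM : 1 ≤ M := h.one.trans h1
  refine (Nat.mul_le_mul_right _ h1).trans ?_
  zify [hn.le, (by omega : 1 ≤ a), hM] at h3 ⊢
  nlinarith

/-- `i = 1`, packing -/
theorem Cnt.p1 (h : Cnt a m n N) (ha : 2 ≤ a) : N * (a * (a - 1)) ≤ n * (n - 1) := by
  obtain ⟨M, h1, h2⟩ := h.fam 1 le_rfl (by omega)
  simp only [Ico_self, prod_empty, mul_one] at h1
  have h3 := fam_pack h2
  have e1 : a * (a - 1) = 2 * a.choose 2 := by
    rw [Nat.choose_two_right]
    exact (Nat.mul_div_cancel' (Nat.even_mul_pred_self a).two_dvd).symm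
  have e2 : n * (n - 1) = 2 * n.choose 2 := by
    rw [Nat.choose_two_right]
    exact (Nat.mul_div_cancel' (Nat.even_mul_pred_self n).two_dvd).symm
  rw [e1, e2]
  calc N * (2 * a.choose 2) ≤ M * (2 * a.choose 2) := Nat.mul_le_mul_right _ h1
    _ = 2 * (M * a.choose 2) := by ring
    _ ≤ 2 * n.choose 2 := Nat.mul_le_mul_left _ h3

/-- `i = 2` -/
theorem Cnt.two (h : Cnt a m n N) (ha : 3 ≤ a) : ∃ M, N * (m - N) ≤ M * (a - 1) ∧
    Fam n a 2 M := by
  obtain ⟨M, h1, h2⟩ := h.fam 2 (by norm_num) (by omega)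
  refine ⟨M, ?_, h2⟩
  have : Ico 1 2 = {1} := rfl
  rw [this, prod_singleton, prod_singleton, one_mul] at h1
  exact h1

/-- `i = 2`, second moment -/
theorem fam_sm2 {M : ℕ} (h : Fam n a 2 M) (ha : 2 ≤ a) (hn : 2 * n < a ^ 2) :
    M * (a ^ 2 - 2 * n) ≤ n * (a - 2) := by
  rcases Nat.eq_zero_or_pos M with h0 | h0
  · subst h0
    simp
  have h3 := fam_sm h
  zify [hn.le, ha, (by omega : 1 ≤ M)] at h3 ⊢
  nlinarith

/-- `i = 2`, Johnson and second moment -/
theorem fam_j2 {M : ℕ} (h : Fam n a 2 M) (ha : 2 ≤ a) (hn1 : 1 ≤ n)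
    (hn : n - 1 < (a - 1) ^ 2) :
    ∃ M', M * a ≤ n * M' ∧ M' * ((a - 1) ^ 2 - (n - 1)) ≤ (n - 1) * (a - 2) := by
  obtain ⟨b, rfl⟩ : ∃ b, a = b + 1 := ⟨a - 1, by omega⟩
  obtain ⟨M', h1, h2⟩ := fam_john h
  refine ⟨M', h2, ?_⟩
  simp only [Nat.add_sub_cancel] at hn ⊢
  rcases Nat.eq_zero_or_pos M' with h0 | h0
  · subst h0
    simp
  have h3 := fam_sm h1
  have e : b + 1 - 2 = b - 1 := by omega
  rw [e]
  zify [hn.le, (by omega : 1 ≤ b), (by omega : 1 ≤ M'), hn1] at h3 ⊢
  nlinarith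

/-- `i = 2`, packing -/
theorem fam_p2 {M : ℕ} (h : Fam n a 2 M) : M * (a * (a - 1) * (a - 2)) ≤
    n * (n - 1) * (n - 2) := by
  have h3 := fam_pack h
  have e : ∀ k : ℕ, k * (k - 1) * (k - 2) = 6 * k.choose 3 := by
    intro k
    have := Nat.descFactorial_eq_factorial_mul_choose k 3
    rw [show (3 : ℕ).factorial = 6 from rfl] at this
    rw [← this]
    simp only [Nat.descFactorial_succ, Nat.descFactorial_zero, Nat.sub_zero]
    ring
  rw [e, e]
  calc M * (6 * a.choose 3) = 6 * (M * a.choose 3) := by ring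
    _ ≤ 6 * n.choose 3 := Nat.mul_le_mul_left _ h3

/-- general `i`, packing -/
theorem Cnt.pi (h : Cnt a m n N) {i : ℕ} (hi : 1 ≤ i) (hia : i < a) :
    N * (∏ l ∈ Ico 1 i, (m - l * N)) * (a * (a - i)) ≤
      n * (∏ l ∈ Ico 1 i, (n - l)) * (n - i) := by
  obtain ⟨M, h1, h2⟩ := h.fam i hi hia
  have h3 := fam_pack h2
  have e : ∀ k : ℕ, k * (∏ l ∈ Ico 1 i, (k - l)) * (k - i) = (i + 1).factorial * k.choose (i + 1) := by
    intro k
    rw [← Nat.descFactorial_eq_factorial_mul_choose, Nat.descFactorial_eq_prod_range,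
      prod_range_succ, range_eq_Ico, prod_eq_prod_Ico_succ_bot (by omega : 0 < i)]
    simp
  have e2 : 0 < ∏ l ∈ Ico 1 i, (a - l) := by
    apply prod_pos
    intro l hl
    have := (mem_Ico.mp hl).2
    omega
  apply Nat.le_of_mul_le_mul_left _ e2
  calc (∏ l ∈ Ico 1 i, (a - l)) * (N * (∏ l ∈ Ico 1 i, (m - l * N)) * (a * (a - i)))
      = (N * ∏ l ∈ Ico 1 i, (m - l * N)) * (a * (∏ l ∈ Ico 1 i, (a - l)) * (a - i)) := by ring
    _ ≤ (M * ∏ l ∈ Ico 1 i, (a - l)) * (a * (∏ l ∈ Ico 1 i, (a - l)) * (a - i)) :=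
        Nat.mul_le_mul_right _ h1
    _ = (∏ l ∈ Ico 1 i, (a - l)) * ((i + 1).factorial * (M * a.choose (i + 1))) := by
        rw [e a]
        ring
    _ ≤ (∏ l ∈ Ico 1 i, (a - l)) * ((i + 1).factorial * n.choose (i + 1)) :=
        Nat.mul_le_mul_left _ (Nat.mul_le_mul_left _ h3)
    _ = _ := by rw [e n]

end Pool.Agent.GC2
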