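import Pool.Agent.Lib_helper20.GC2.Small

/-!
# MP_de0e04: the numbers for large `d`, part A (helper20)
-/

set_option autoImplicit false

namespace Pool.Agent.GC2

open Finset

/-- regime A: no extremal state -/
theorem regA {a m n N : ℕ} (ha : 3 ≤ a) (hn : 2 * n ≤ a * (a - 2)) (h : Cnt a m n N)
    (hm : n + a - 1 ≤ m) : False := by
  have hna := h.pos (by omega)
  have hle := h.le
  have hN1 := h.one
  obtain ⟨b, rfl⟩ : ∃ b, a = b + 2 := ⟨a - 2, by omega⟩
  simp only [Nat.add_sub_cancel] at hn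
  have h1 : 2 * n < (b + 2) ^ 2 := by nlinarith
  have h2 := h.sm1 (by omega) (by omega)
  obtain ⟨M, h3, h4⟩ := h.two ha
  have h5 := fam_sm2 h4 (by omega) h1
  have e1 : b + 2 - 1 = b + 1 := by omega
  have e2 : b + 2 - 2 = b := by omega
  rw [e1] at h2 h3
  rw [e2] at h5
  -- `N <= b + 1`
  have h6 : N ≤ b + 1 := by
    have h7 : n * (b + 1) ≤ ((b + 2) ^ 2 - n) * (b + 1) := Nat.mul_le_mul_right _ (by omega)
    have h8 : N * ((b + 2) ^ 2 - n) ≤ (b + 1) * ((b + 2) ^ 2 - n) := by
      calc _ ≤ _ := h2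
        _ ≤ _ := h7
        _ = _ := by ring
    exact Nat.le_of_mul_le_mul_right h8 (by omega)
  have h9 : n ≤ m - N := by omega
  have h10 : N * n ≤ M * (b + 1) := (Nat.mul_le_mul_left _ h9).trans h3
  obtain ⟨c, hc⟩ : ∃ c, (b + 2) ^ 2 = 2 * n + c := ⟨(b + 2) ^ 2 - 2 * n, by omega⟩
  have e3 : (b + 2) ^ 2 - 2 * n = c := by omega
  rw [e3] at h5
  have h11 : n * (N * c) ≤ n * (b * (b + 1)) := by
    calc n * (N * c) = (N * n) * c := by ring
      _ ≤ (M * (b + 1)) * c := Nat.mul_le_mul_right _ h10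
      _ = (M * c) * (b + 1) := by ring
      _ ≤ (n * b) * (b + 1) := Nat.mul_le_mul_right _ h5
      _ = _ := by ring
  have h12 : N * c ≤ b * (b + 1) := Nat.le_of_mul_le_mul_left h11 (by omega)
  have h13 : (n + b + 1) * c ≤ (b + 2) * (b * (b + 1)) := by
    calc (n + b + 1) * c ≤ ((b + 2) * N) * c := Nat.mul_le_mul_right _ (by omega)
      _ = (b + 2) * (N * c) := by ring
      _ ≤ _ := Nat.mul_le_mul_left _ h12
  obtain ⟨x, hx⟩ : ∃ x, n = b + 2 + x := ⟨n - (b + 2), by omega⟩
  obtain ⟨y, hy⟩ : ∃ y, (b + 2) * b = 2 * n + y := ⟨(b + 2) * b - 2 * n, by omega⟩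
  have e4 : c = y + 2 * (b + 2) := by nlinarith
  subst e4
  -- `(n + b + 1)(y + 2(b+2)) <= (b+2) b (b+1)`, `b (b+2) = 2 n + y`
  nlinarith [Nat.zero_le (x * y), Nat.zero_le y, Nat.zero_le x]

/-- regime C: `m` is less than `3 n` or less than `4 n^2 / (a (a - 1))` -/
theorem regC {a m n N : ℕ} (ha : 10 ≤ a) (h : Cnt a m n N) (h3 : 3 * n ≤ m)
    (h4 : 4 * n ^ 2 ≤ m * (a * (a - 1))) : False := by
  have hna := h.pos (by omega)
  have hN1 := h.one
  have hle := h.le
  have hm0 : (0 : ℝ) < m := by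
    have : 0 < m := by omega
    exact_mod_cast this
  have hn0 : (0 : ℝ) < n := by
    have : 0 < n := by omega
    exact_mod_cast this
  have hN0 : (0 : ℝ) < N := by exact_mod_cast hN1
  have key : ∀ i, 1 ≤ i → 2 * i ≤ a → 2 ^ (i + 1) * N ≤ m := by
    intro i hi
    induction i, hi using Nat.le_induction with
    | base =>
      intro _
      have h5 := h.p1 (by omega)
      have e1 : 0 < a * (a - 1) := Nat.mul_pos (by omega) (by omega)
      have h6 : 2 ^ (1 + 1) * N * (a * (a - 1)) ≤ m * (a * (a - 1)) := by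
        calc 2 ^ (1 + 1) * N * (a * (a - 1)) = 4 * (N * (a * (a - 1))) := by ring
          _ ≤ 4 * (n * (n - 1)) := Nat.mul_le_mul_left _ h5
          _ ≤ 4 * n ^ 2 := by
              apply Nat.mul_le_mul_left
              rw [sq]
              exact Nat.mul_le_mul_left _ (by omega)
          _ ≤ _ := h4
      exact Nat.le_of_mul_le_mul_right h6 e1
    | succ j hj ih =>
      intro hja
      have ih' := ih (by omega)
      set i := j + 1 with hi
      have h5 := h.pi (i := i) (by omega) (by omega)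
      -- lower bound of the product
      have h6 : ∀ k : ℕ, 1 ≤ k → k ≤ i → (m : ℝ) ^ (k - 1) * (1 - k * ((k : ℝ) - 1) / 2 ^ (i + 1)) ≤
          ∏ l ∈ Ico 1 k, ((m - l * N : ℕ) : ℝ) := by
        intro k hk
        induction k, hk using Nat.le_induction with
        | base =>
          intro _
          simp
        | succ k hk ihk =>
          intro hki
          rw [prod_Ico_succ_top hk]
          have h7 : (2 : ℝ) ^ i * N ≤ m := by exact_mod_cast ih'
          have h2i : (0 : ℝ) < 2 ^ i := by positivity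
          have hki' : k ≤ 2 ^ i := by
            have : i < 2 ^ i := Nat.lt_two_pow_self
            omega
          have hkN : k * N ≤ m := (Nat.mul_le_mul_right N hki').trans ih'
          have h8 : ((m - k * N : ℕ) : ℝ) = m - k * N := by
            rw [Nat.cast_sub hkN]
            push_cast
            ring
          have h9 : (m : ℝ) * (1 - k / 2 ^ i) ≤ m - k * N := by
            have h10 : (k : ℝ) * N ≤ m * (k / 2 ^ i) := by
              rw [mul_div_assoc', le_div_iff₀ h2i]
              nlinarith [Nat.cast_nonneg (α := ℝ) k]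
            linarith
          have hk1 : (k : ℝ) / 2 ^ i ≤ 1 := by
            rw [div_le_one h2i]
            exact_mod_cast hki'
          have hk0 : (0 : ℝ) ≤ k / 2 ^ i := by positivity
          have hkr : (1 : ℝ) ≤ k := by exact_mod_cast hk
          have e2 : k + 1 - 1 = (k - 1) + 1 := by omega
          rw [e2, pow_succ, h8]
          have e3 : (2 : ℝ) ^ (i + 1) = 2 * 2 ^ i := by rw [pow_succ]; ring
          have h11 : (1 - ((k + 1 : ℕ) : ℝ) * (((k + 1 : ℕ) : ℝ) - 1) / 2 ^ (i + 1)) ≤
              (1 - k * ((k : ℝ) - 1) / 2 ^ (i + 1)) * (1 - k / 2 ^ i) := by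
            have h12 : ((k + 1 : ℕ) : ℝ) * (((k + 1 : ℕ) : ℝ) - 1) / 2 ^ (i + 1) =
                k * ((k : ℝ) - 1) / 2 ^ (i + 1) + k / 2 ^ i := by
              rw [e3]
              push_cast
              field_simp
              ring
            have h13 : 0 ≤ k * ((k : ℝ) - 1) / 2 ^ (i + 1) :=
              div_nonneg (mul_nonneg (by linarith) (by linarith)) (by positivity)
            rw [h12]
            nlinarith [mul_nonneg h13 hk0]
          have h14 := ihk (by omega)
          have h15 : (m : ℝ) ^ (k - 1) * m * (1 - ((k + 1 : ℕ) : ℝ) * (((k + 1 : ℕ) : ℝ) - 1) /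
              2 ^ (i + 1)) ≤ (m : ℝ) ^ (k - 1) * m *
              ((1 - k * ((k : ℝ) - 1) / 2 ^ (i + 1)) * (1 - k / 2 ^ i)) :=
            mul_le_mul_of_nonneg_left h11 (by positivity)
          refine h15.trans ?_
          have h16 : 0 ≤ (m : ℝ) * (1 - k / 2 ^ i) := mul_nonneg hm0.le (by linarith)
          calc (m : ℝ) ^ (k - 1) * m * ((1 - k * ((k : ℝ) - 1) / 2 ^ (i + 1)) * (1 - k / 2 ^ i))
              = ((m : ℝ) ^ (k - 1) * (1 - k * ((k : ℝ) - 1) / 2 ^ (i + 1))) *
                (m * (1 - k / 2 ^ i)) := by ring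
            _ ≤ (∏ l ∈ Ico 1 k, ((m - l * N : ℕ) : ℝ)) * (m * (1 - k / 2 ^ i)) :=
                mul_le_mul_of_nonneg_right h14 h16
            _ ≤ (∏ l ∈ Ico 1 k, ((m - l * N : ℕ) : ℝ)) * (m - k * N) :=
                mul_le_mul_of_nonneg_left h9 (prod_nonneg fun _ _ => Nat.cast_nonneg _)
      have h7 := h6 i (by omega) le_rfl
      -- upper bound of the right side
      have h8 : n * (∏ l ∈ Ico 1 i, (n - l)) * (n - i) ≤ n ^ 2 * n ^ (i - 1) := by
        have h9 : ∏ l ∈ Ico 1 i, (n - l) ≤ n ^ (i - 1) := by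
          calc ∏ l ∈ Ico 1 i, (n - l) ≤ ∏ _l ∈ Ico 1 i, n :=
                prod_le_prod' fun l _ => Nat.sub_le _ _
            _ = n ^ (i - 1) := by rw [prod_const, Nat.card_Ico]
        calc n * (∏ l ∈ Ico 1 i, (n - l)) * (n - i) ≤ n * n ^ (i - 1) * n :=
              Nat.mul_le_mul (Nat.mul_le_mul_left _ h9) (Nat.sub_le _ _)
          _ = _ := by ring
      have h9 : (N : ℝ) * (∏ l ∈ Ico 1 i, ((m - l * N : ℕ) : ℝ)) * (a * ((a : ℝ) - i)) ≤
          (n : ℝ) ^ 2 * (n : ℝ) ^ (i - 1) := by
        have h10 : ((N * (∏ l ∈ Ico 1 i, (m - l * N)) * (a * (a - i)) : ℕ) : ℝ) ≤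
            ((n ^ 2 * n ^ (i - 1) : ℕ) : ℝ) := by exact_mod_cast h5.trans h8
        rw [Nat.cast_mul, Nat.cast_mul, Nat.cast_mul, Nat.cast_sub (by omega : i ≤ a),
          Nat.cast_prod] at h10
        rw [Nat.cast_mul, Nat.cast_pow, Nat.cast_pow] at h10
        exact h10
      have hai : (i : ℝ) * 2 ≤ a := by
        have : i * 2 ≤ a := by omega
        exact_mod_cast this
      have ha10 : (10 : ℝ) ≤ a := by exact_mod_cast ha
      have h4' : 4 * (n : ℝ) ^ 2 ≤ m * (a * ((a : ℝ) - 1)) := by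
        have h10 : ((4 * n ^ 2 : ℕ) : ℝ) ≤ ((m * (a * (a - 1)) : ℕ) : ℝ) := by exact_mod_cast h4
        rw [Nat.cast_mul, Nat.cast_mul, Nat.cast_mul, Nat.cast_sub (by omega : 1 ≤ a)] at h10
        simpa using h10
      have h3' : 3 * (n : ℝ) ≤ m := by exact_mod_cast h3
      have h10 : (n : ℝ) ^ (i - 1) ≤ (m / 3) ^ (i - 1) :=
        pow_le_pow_left₀ hn0.le (by linarith) _
      set w : ℝ := 1 - i * ((i : ℝ) - 1) / 2 ^ (i + 1) with hw
      -- `N w (a - i) 4 3^(i-1) <= m (a - 1)`
      have h11 : (N : ℝ) * w * (a - i) * (4 * 3 ^ (i - 1)) ≤ m * (a - 1) := by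
        have hai0 : (0 : ℝ) ≤ a * ((a : ℝ) - i) :=
          mul_nonneg (by linarith) (by linarith [Nat.cast_nonneg (α := ℝ) i])
        have h12 : (N : ℝ) * ((m : ℝ) ^ (i - 1) * w) * (a * ((a : ℝ) - i)) ≤
            (m * (a * ((a : ℝ) - 1)) / 4) * (m / 3) ^ (i - 1) := by
          calc (N : ℝ) * ((m : ℝ) ^ (i - 1) * w) * (a * ((a : ℝ) - i)) ≤
              (N : ℝ) * (∏ l ∈ Ico 1 i, ((m - l * N : ℕ) : ℝ)) * (a * ((a : ℝ) - i)) :=
                mul_le_mul_of_nonneg_right (mul_le_mul_of_nonneg_left h7 hN0.le) hai0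
            _ ≤ (n : ℝ) ^ 2 * (n : ℝ) ^ (i - 1) := h9
            _ ≤ (m * (a * ((a : ℝ) - 1)) / 4) * (m / 3) ^ (i - 1) :=
                mul_le_mul (by linarith) h10 (by positivity)
                  (by
                    have : (0 : ℝ) ≤ a * ((a : ℝ) - 1) := mul_nonneg (by linarith) (by linarith)
                    positivity)
        have h13 : (0 : ℝ) < (m : ℝ) ^ (i - 1) := by positivity
        have h14 : (0 : ℝ) < (3 : ℝ) ^ (i - 1) := by positivity
        rw [div_pow] at h12
        have ha0 : (0 : ℝ) < a := by linarith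
        have h15 : ((m : ℝ) ^ (i - 1) * a) * ((N : ℝ) * w * (a - i) * (4 * 3 ^ (i - 1))) ≤
            ((m : ℝ) ^ (i - 1) * a) * (m * (a - 1)) := by
          have h16 := mul_le_mul_of_nonneg_right h12 (by positivity : (0 : ℝ) ≤ 4 * 3 ^ (i - 1))
          calc ((m : ℝ) ^ (i - 1) * a) * ((N : ℝ) * w * (a - i) * (4 * 3 ^ (i - 1)))
              = (N : ℝ) * ((m : ℝ) ^ (i - 1) * w) * (a * ((a : ℝ) - i)) * (4 * 3 ^ (i - 1)) := by
                ring
            _ ≤ (m * (a * ((a : ℝ) - 1)) / 4) * ((m : ℝ) ^ (i - 1) / 3 ^ (i - 1)) *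
                (4 * 3 ^ (i - 1)) := h16
            _ = _ := by
                field_simp
        exact le_of_mul_le_mul_left h15 (by positivity)
      -- comparison
      have h12 : (2 : ℝ) ^ (i + 1) * (a - 1) ≤ w * (a - i) * (4 * 3 ^ (i - 1)) := by
        rcases Nat.lt_or_ge i 4 with h13 | h13
        · have h14 : i = 2 ∨ i = 3 := by omega
          rcases h14 with h14 | h14
          · rw [hw, h14]
            norm_num
            linarith
          · rw [hw, h14]
            norm_num
            linarith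
        · -- `w >= 5/8`
          have h14 : ∀ k : ℕ, 4 ≤ k → (k : ℝ) * (k - 1) * 8 ≤ 3 * 2 ^ (k + 1) := by
            intro k hk
            induction k, hk using Nat.le_induction with
            | base => norm_num
            | succ k hk ihk =>
              have hk' : (4 : ℝ) ≤ k := by exact_mod_cast hk
              rw [pow_succ]
              push_cast
              nlinarith
          have h15 : 5 / 8 ≤ w := by
            have h16 := h14 i h13
            rw [hw]
            have h17 : (0 : ℝ) < 2 ^ (i + 1) := by positivity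
            have h18 : i * ((i : ℝ) - 1) / 2 ^ (i + 1) ≤ 3 / 8 := by
              rw [div_le_iff₀ h17]
              linarith
            linarith
          have h16 : ∀ k : ℕ, 4 ≤ k → (16 : ℝ) * 2 ^ (k - 1) ≤ 5 * 3 ^ (k - 1) := by
            intro k hk
            induction k, hk using Nat.le_induction with
            | base => norm_num
            | succ k hk ihk =>
              have e : k + 1 - 1 = (k - 1) + 1 := by omega
              rw [e, pow_succ, pow_succ]
              have : (0 : ℝ) < 2 ^ (k - 1) := by positivity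
              nlinarith
          have h17 := h16 i h13
          have e4 : (2 : ℝ) ^ (i + 1) = 4 * 2 ^ (i - 1) := by
            have : i + 1 = (i - 1) + 2 := by omega
            rw [this, pow_add]
            ring
          rw [e4]
          have h18 : ((a : ℝ) - 1) / 2 ≤ a - i := by linarith
          have h19 : (0 : ℝ) ≤ ((a : ℝ) - 1) / 2 := by linarith
          have h20 : (5 / 8) * (((a : ℝ) - 1) / 2) ≤ w * (a - i) :=
            mul_le_mul h15 h18 h19 (by linarith)
          have h21 : (0 : ℝ) < 3 ^ (i - 1) := by positivity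
          calc 4 * (2 : ℝ) ^ (i - 1) * (a - 1) ≤ 4 * (5 / 16 * 3 ^ (i - 1)) * (a - 1) := by
                apply mul_le_mul_of_nonneg_right _ (by linarith)
                linarith
            _ = ((5 / 8) * (((a : ℝ) - 1) / 2)) * (4 * 3 ^ (i - 1)) := by ring
            _ ≤ w * (a - i) * (4 * 3 ^ (i - 1)) :=
                mul_le_mul_of_nonneg_right h20 (by positivity)
      have h13 : ((2 : ℝ) ^ (i + 1) * N) * (a - 1) ≤ m * (a - 1) := by
        calc ((2 : ℝ) ^ (i + 1) * N) * (a - 1) = N * (2 ^ (i + 1) * (a - 1)) := by ring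
          _ ≤ N * (w * (a - i) * (4 * 3 ^ (i - 1))) := mul_le_mul_of_nonneg_left h12 hN0.le
          _ = N * w * (a - i) * (4 * 3 ^ (i - 1)) := by ring
          _ ≤ _ := h11
      have h14 : (2 : ℝ) ^ (i + 1) * N ≤ m := le_of_mul_le_mul_right h13 (by linarith)
      exact_mod_cast h14
  -- the end
  have h5 : 2 ^ Nat.log 2 a ≤ a := Nat.pow_log_le_self 2 (by omega)
  have h6 : a < 2 ^ (Nat.log 2 a + 1) := Nat.lt_pow_succ_log_self (by norm_num) a
  have h7 : 1 ≤ Nat.log 2 a := Nat.log_pos (by norm_num) (by omega)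
  have h8 : ∀ k : ℕ, 1 ≤ k → 2 * k ≤ 2 ^ k := by
    intro k hk
    induction k, hk using Nat.le_induction with
    | base => norm_num
    | succ k hk ihk =>
      rw [pow_succ]
      omega
  have h9 := key (Nat.log 2 a) h7 ((h8 _ h7).trans h5)
  have h10 : (a + 1) * N ≤ 2 ^ (Nat.log 2 a + 1) * N := Nat.mul_le_mul_right _ h6
  have h11 : (a + 1) * N = a * N + N := by ring
  omega

end Pool.Agent.GC2
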