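import Pool.Agent.Lib_helper20.GC2.LargeA

/-!
# MP_de0e04: the numbers for large `d`, part B (helper20)
-/

set_option autoImplicit false

namespace Pool.Agent.GC2

open Finset

theorem exp_point_four : (1.49 : ℝ) ≤ Real.exp 0.4 := by
  have h := Real.sum_le_exp_of_nonneg (x := 0.4) (by norm_num) 5
  refine le_trans ?_ h
  simp only [Finset.sum_range_succ, Finset.sum_range_zero]
  norm_num [Nat.factorial]

theorem exp_14 : (4.05 : ℝ) ≤ Real.exp 1.4 := by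
  have h1 := Real.exp_one_gt_d9
  have h2 := exp_point_four
  have e : (1.4 : ℝ) = 1 + 0.4 := by norm_num
  rw [e, Real.exp_add]
  nlinarith

theorem exp_24 : (11 : ℝ) ≤ Real.exp 2.4 := by
  have h1 := Real.exp_one_gt_d9
  have h2 := exp_point_four
  have e : (2.4 : ℝ) = 1 + 1 + 0.4 := by norm_num
  rw [e, Real.exp_add, Real.exp_add]
  have h3 : (7.389 : ℝ) ≤ Real.exp 1 * Real.exp 1 := by nlinarith
  nlinarith

/-- `(1 + 4/p^2)^k >= exp x0 (1 + x - x0)`, `x <= 4 k / (p^2 + 4)` -/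
theorem pow_ge_exp {p : ℝ} (hp : 0 < p) (k : ℕ) (x x0 : ℝ) (hx : x ≤ 4 * k / (p ^ 2 + 4)) :
    Real.exp x0 * (1 + x - x0) ≤ (1 + 4 / p ^ 2) ^ k := by
  have h1 : 0 < 1 + 4 / p ^ 2 := by positivity
  have h2 : 4 / (p ^ 2 + 4) ≤ Real.log (1 + 4 / p ^ 2) := by
    have h3 := Real.one_sub_inv_le_log_of_pos h1
    have e : 1 - (1 + 4 / p ^ 2)⁻¹ = 4 / (p ^ 2 + 4) := by
      field_simp
      ring
    rw [e] at h3
    exact h3
  have h3 : (1 + 4 / p ^ 2) ^ k = Real.exp (k * Real.log (1 + 4 / p ^ 2)) := by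
    rw [mul_comm, Real.exp_mul, Real.exp_log h1, Real.rpow_natCast]
  rw [h3]
  have h4 : x ≤ k * Real.log (1 + 4 / p ^ 2) := by
    refine hx.trans ?_
    have : 4 * (k : ℝ) / (p ^ 2 + 4) = k * (4 / (p ^ 2 + 4)) := by ring
    rw [this]
    exact mul_le_mul_of_nonneg_left h2 (Nat.cast_nonneg _)
  have h5 : 1 + x - x0 ≤ Real.exp (x - x0) := by
    have := Real.add_one_le_exp (x - x0)
    linarith
  calc Real.exp x0 * (1 + x - x0) ≤ Real.exp x0 * Real.exp (x - x0) :=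
        mul_le_mul_of_nonneg_left h5 (Real.exp_pos _).le
    _ = Real.exp x := by rw [← Real.exp_add]; congr 1; ring
    _ ≤ _ := Real.exp_le_exp.mpr h4

/-- the window -/
theorem window {p Y t : ℝ} (hp : 42 ≤ p) (ht : t = 4 / p ^ 2) (hY : (p ^ 2 + 2 * p + 2) / 4 ≤ Y)
    (h : ℕ) (hh : (h : ℝ) + 2 ≤ p) : Y * ((1 + t) ^ h)⁻¹ ≤ Y - h := by
  have hp0 : 0 < p := by linarith
  have ht0 : 0 < t := by rw [ht]; positivity
  have h1 := pow_ge_two ht0.le h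
  have h2 : 0 < (1 + t) ^ h := by positivity
  rw [← div_eq_mul_inv, div_le_iff₀ h2]
  have hh0 : (0 : ℝ) ≤ h := Nat.cast_nonneg _
  have hYh : 0 ≤ Y - h := by nlinarith
  refine le_trans ?_ (mul_le_mul_of_nonneg_left h1 hYh)
  -- `Y <= (Y - h)(1 + h t + h (h-1)/2 t^2)`
  rcases Nat.eq_zero_or_pos h with h0 | h0
  · subst h0
    simp
  have hh1 : (1 : ℝ) ≤ h := by exact_mod_cast h0
  -- with `t = 4 / p^2`
  have e : t * p ^ 2 = 4 := by rw [ht]; field_simp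
  have hX : (p ^ 2 + 2 * p + 2) ≤ Y * t * p ^ 2 := by
    have : Y * t * p ^ 2 = 4 * Y := by rw [mul_assoc, e]; ring
    rw [this]
    linarith
  have key : 0 ≤ Y * (t + ((h : ℝ) - 1) / 2 * t ^ 2) - (1 + h * t + h * ((h : ℝ) - 1) / 2 * t ^ 2) := by
    have h3 : 0 ≤ (Y * (t + ((h : ℝ) - 1) / 2 * t ^ 2) -
        (1 + h * t + h * ((h : ℝ) - 1) / 2 * t ^ 2)) * p ^ 4 := by
      have e1 : (Y * (t + ((h : ℝ) - 1) / 2 * t ^ 2) -
          (1 + h * t + h * ((h : ℝ) - 1) / 2 * t ^ 2)) * p ^ 4 =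
          (Y * t * p ^ 2) * p ^ 2 + ((h : ℝ) - 1) / 2 * (t * p ^ 2) * (Y * t * p ^ 2) - p ^ 4 -
            h * (t * p ^ 2) * p ^ 2 - h * ((h : ℝ) - 1) / 2 * (t * p ^ 2) ^ 2 := by ring
      rw [e1, e]
      have h4 : (p ^ 2 + 2 * p + 2) * p ^ 2 ≤ (Y * t * p ^ 2) * p ^ 2 :=
        mul_le_mul_of_nonneg_right hX (by positivity)
      have h5 : ((h : ℝ) - 1) / 2 * 4 * (p ^ 2 + 2 * p + 2) ≤
          ((h : ℝ) - 1) / 2 * 4 * (Y * t * p ^ 2) :=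
        mul_le_mul_of_nonneg_left hX (by nlinarith)
      have h6 : 4 * p ^ 2 ≤ 2 * p ^ 2 * (p - h) := by nlinarith [sq_nonneg p]
      nlinarith [mul_nonneg hh0 (by linarith : (0 : ℝ) ≤ (h : ℝ) - 1), mul_pos hp0 hp0,
        mul_nonneg (by linarith : (0 : ℝ) ≤ (h : ℝ) - 1) (by linarith : (0 : ℝ) ≤ p - h - 2)]
    have hp4 : 0 < p ^ 4 := by positivity
    exact nonneg_of_mul_nonneg_left h3 hp4
  nlinarith [mul_nonneg hh0 key]

/-- the first value -/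
theorem val_b {p Y B x w : ℝ} (hp : 42 ≤ p) (hY : (p ^ 2 + 2 * p + 2) / 4 ≤ Y)
    (hB : B = (p ^ 2 - 6 * p + 7) / 8) (hx : x = (3 * p ^ 2 - 18 * p - 12) / (2 * (p ^ 2 + 4)))
    (hw : Real.exp 1.4 * (1 + x - 1.4) ≤ w) : 1.6 * ((p ^ 2 - 4 * p + 5) / 2) ≤ Y * w - B := by
  have hq : 0 < p ^ 2 + 4 := by positivity
  have h1 : 1 + x - 1.4 = (11 * p ^ 2 - 90 * p - 76) / (10 * (p ^ 2 + 4)) := by
    rw [hx]
    field_simp
    ring
  have h2 : 0 ≤ 11 * p ^ 2 - 90 * p - 76 := by nlinarith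
  have h3 : 4.05 * ((11 * p ^ 2 - 90 * p - 76) / (10 * (p ^ 2 + 4))) ≤ w := by
    refine le_trans ?_ hw
    rw [h1]
    exact mul_le_mul_of_nonneg_right exp_14 (by positivity)
  have h4 : (p ^ 2 + 2 * p + 2) / 4 * (4.05 * ((11 * p ^ 2 - 90 * p - 76) / (10 * (p ^ 2 + 4)))) ≤
      Y * w := mul_le_mul hY h3 (by positivity) (by nlinarith)
  have h5 : 1.6 * ((p ^ 2 - 4 * p + 5) / 2) + (p ^ 2 - 6 * p + 7) / 8 ≤
      (p ^ 2 + 2 * p + 2) / 4 * (4.05 * ((11 * p ^ 2 - 90 * p - 76) / (10 * (p ^ 2 + 4)))) := by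
    have e : (p ^ 2 + 2 * p + 2) / 4 * (4.05 * ((11 * p ^ 2 - 90 * p - 76) / (10 * (p ^ 2 + 4)))) =
        (4.05 / 40 * (p ^ 2 + 2 * p + 2) * (11 * p ^ 2 - 90 * p - 76)) / (p ^ 2 + 4) := by
      field_simp
      ring
    rw [e, le_div_iff₀ hq]
    obtain ⟨u, rfl⟩ : ∃ u, p = 42 + u := ⟨p - 42, by ring⟩
    have hu : 0 ≤ u := by linarith
    have : 0 ≤ 4.05 / 40 * ((42 + u) ^ 2 + 2 * (42 + u) + 2) * (11 * (42 + u) ^ 2 - 90 * (42 + u) - 76) -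
        (1.6 * (((42 + u) ^ 2 - 4 * (42 + u) + 5) / 2) + ((42 + u) ^ 2 - 6 * (42 + u) + 7) / 8) *
          ((42 + u) ^ 2 + 4) := by
      ring_nf
      positivity
    linarith
  rw [hB]
  linarith

/-- the second value -/
theorem val_c {p Y B x w : ℝ} (hp : 42 ≤ p) (hY : (p ^ 2 + 2 * p + 2) / 4 ≤ Y)
    (hB : B = (p ^ 2 - 6 * p + 7) / 8)
    (hx : x = (2.46 * p ^ 2 - 6.92 * p - 11.04) / (p ^ 2 + 4))
    (hw : Real.exp 2.4 * (1 + x - 2.4) ≤ w) :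
    3 * (0.74 * (p - 1) ^ 2 + 1) ≤ Y * w - B ∧
      4 * (0.74 * (p - 1) ^ 2 + 1) ^ 2 ≤ (Y * w - B) * ((p - 1) * (p - 2)) := by
  have hq : 0 < p ^ 2 + 4 := by positivity
  have h1 : 1 + x - 2.4 = (1.06 * p ^ 2 - 6.92 * p - 16.64) / (p ^ 2 + 4) := by
    rw [hx]
    field_simp
    ring
  have h2 : 0 ≤ 1.06 * p ^ 2 - 6.92 * p - 16.64 := by nlinarith
  have h3 : 11 * ((1.06 * p ^ 2 - 6.92 * p - 16.64) / (p ^ 2 + 4)) ≤ w := by
    refine le_trans ?_ hw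
    rw [h1]
    exact mul_le_mul_of_nonneg_right exp_24 (by positivity)
  have h4 : (p ^ 2 + 2 * p + 2) / 4 * (11 * ((1.06 * p ^ 2 - 6.92 * p - 16.64) / (p ^ 2 + 4))) ≤
      Y * w := mul_le_mul hY h3 (by positivity) (by nlinarith)
  -- a clean lower bound
  have h5 : 2.79 * p ^ 2 - 12.5 * p - 93 + (p ^ 2 - 6 * p + 7) / 8 ≤
      (p ^ 2 + 2 * p + 2) / 4 * (11 * ((1.06 * p ^ 2 - 6.92 * p - 16.64) / (p ^ 2 + 4))) := by
    have e : (p ^ 2 + 2 * p + 2) / 4 * (11 * ((1.06 * p ^ 2 - 6.92 * p - 16.64) / (p ^ 2 + 4))) =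
        (11 / 4 * (p ^ 2 + 2 * p + 2) * (1.06 * p ^ 2 - 6.92 * p - 16.64)) / (p ^ 2 + 4) := by
      field_simp
    rw [e, le_div_iff₀ hq]
    obtain ⟨u, rfl⟩ : ∃ u, p = 42 + u := ⟨p - 42, by ring⟩
    have hu : 0 ≤ u := by linarith
    have : 0 ≤ 11 / 4 * ((42 + u) ^ 2 + 2 * (42 + u) + 2) *
        (1.06 * (42 + u) ^ 2 - 6.92 * (42 + u) - 16.64) -
        (2.79 * (42 + u) ^ 2 - 12.5 * (42 + u) - 93 + ((42 + u) ^ 2 - 6 * (42 + u) + 7) / 8) *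
          ((42 + u) ^ 2 + 4) := by
      ring_nf
      positivity
    linarith
  have h6 : 2.79 * p ^ 2 - 12.5 * p - 93 ≤ Y * w - B := by
    rw [hB]
    linarith
  refine ⟨le_trans ?_ h6, ?_⟩
  · nlinarith
  · have h7 : 0 ≤ (p - 1) * (p - 2) := mul_nonneg (by linarith) (by linarith)
    refine le_trans ?_ (mul_le_mul_of_nonneg_right h6 h7)
    obtain ⟨u, rfl⟩ : ∃ u, p = 42 + u := ⟨p - 42, by ring⟩
    have hu : 0 ≤ u := by linarith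
    have : 0 ≤ (2.79 * (42 + u) ^ 2 - 12.5 * (42 + u) - 93) * ((42 + u - 1) * (42 + u - 2)) -
        4 * (0.74 * (42 + u - 1) ^ 2 + 1) ^ 2 := by
      ring_nf
      positivity
    linarith

/-- growth in regime B -/
theorem growB {p n : ℝ} (hp : 42 ≤ p) (h1 : (p - 1) * (p - 3) + 1 ≤ 2 * n)
    (h2 : 50 * n ≤ 37 * (p - 1) ^ 2) :
    ((p - 2) ^ 2 - (n - 1)) * (n + 1) ≤
      (1 + 2 * (4 / p ^ 2)) * (((p - 2) ^ 2 - (n - 1) - 1) * (n - 1)) := by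
  have hp0 : 0 < p ^ 2 := by positivity
  -- `p^2 (2 (p-2)^2 - n + 1) <= 8 ((p-2)^2 - n)(n-1)`
  have key : p ^ 2 * (2 * (p - 2) ^ 2 - n + 1) ≤ 8 * (((p - 2) ^ 2 - n) * (n - 1)) := by
    have h3 : 0 ≤ (2 * n - ((p - 1) * (p - 3) + 1)) * (37 * (p - 1) ^ 2 - 50 * n) :=
      mul_nonneg (by linarith) (by linarith)
    -- linear remainder
    obtain ⟨u, rfl⟩ : ∃ u, p = 42 + u := ⟨p - 42, by ring⟩
    have hu : 0 ≤ u := by linarith
    set lo : ℝ := ((42 + u - 1) * (42 + u - 3) + 1) / 2 with hlo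
    set hi : ℝ := 37 * (42 + u - 1) ^ 2 / 50 with hhi
    have g1 : lo ≤ n := by rw [hlo]; linarith
    have g2 : n ≤ hi := by rw [hhi]; linarith
    have glo : 0 ≤ 8 * (((42 + u - 2) ^ 2 - lo) * (lo - 1)) -
        (42 + u) ^ 2 * (2 * (42 + u - 2) ^ 2 - lo + 1) := by
      rw [hlo]
      ring_nf
      positivity
    have ghi : 0 ≤ 8 * (((42 + u - 2) ^ 2 - hi) * (hi - 1)) -
        (42 + u) ^ 2 * (2 * (42 + u - 2) ^ 2 - hi + 1) := by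
      rw [hhi]
      ring_nf
      positivity
    have glh : lo < hi := by
      rw [hlo, hhi]
      nlinarith
    -- concavity
    have h4 : 0 ≤ (hi - n) * (8 * (((42 + u - 2) ^ 2 - lo) * (lo - 1)) -
        (42 + u) ^ 2 * (2 * (42 + u - 2) ^ 2 - lo + 1)) + (n - lo) *
        (8 * (((42 + u - 2) ^ 2 - hi) * (hi - 1)) -
        (42 + u) ^ 2 * (2 * (42 + u - 2) ^ 2 - hi + 1)) :=
      add_nonneg (mul_nonneg (by linarith) glo) (mul_nonneg (by linarith) ghi)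
    have h5 : (hi - lo) * (8 * (((42 + u - 2) ^ 2 - n) * (n - 1)) -
        (42 + u) ^ 2 * (2 * (42 + u - 2) ^ 2 - n + 1)) =
        ((hi - n) * (8 * (((42 + u - 2) ^ 2 - lo) * (lo - 1)) -
        (42 + u) ^ 2 * (2 * (42 + u - 2) ^ 2 - lo + 1)) + (n - lo) *
        (8 * (((42 + u - 2) ^ 2 - hi) * (hi - 1)) -
        (42 + u) ^ 2 * (2 * (42 + u - 2) ^ 2 - hi + 1))) +
        8 * (hi - lo) * (n - lo) * (hi - n) := by ring
    have h6 : 0 ≤ (hi - lo) * (8 * (((42 + u - 2) ^ 2 - n) * (n - 1)) -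
        (42 + u) ^ 2 * (2 * (42 + u - 2) ^ 2 - n + 1)) := by
      rw [h5]
      have : 0 ≤ 8 * (hi - lo) * (n - lo) * (hi - n) :=
        mul_nonneg (mul_nonneg (mul_nonneg (by norm_num) (by linarith)) (by linarith)) (by linarith)
      linarith
    have h7 : 0 ≤ 8 * (((42 + u - 2) ^ 2 - n) * (n - 1)) -
        (42 + u) ^ 2 * (2 * (42 + u - 2) ^ 2 - n + 1) :=
      nonneg_of_mul_nonneg_right h6 (by linarith)
    linarith
  have h3 : 2 * (p - 2) ^ 2 - n + 1 ≤ 8 / p ^ 2 * (((p - 2) ^ 2 - n) * (n - 1)) := by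
    rw [div_mul_eq_mul_div, le_div_iff₀ hp0]
    linarith
  have e : (1 + 2 * (4 / p ^ 2)) * (((p - 2) ^ 2 - (n - 1) - 1) * (n - 1)) =
      ((p - 2) ^ 2 - n) * (n - 1) + 8 / p ^ 2 * (((p - 2) ^ 2 - n) * (n - 1)) := by ring
  rw [e]
  nlinarith

end Pool.Agent.GC2
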