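import Pool.Agent.Lib_helper20.GC2.Runs
import Pool.Agent.Lib_helper20.GC2.LargeB

/-!
# MP_de0e04: the numbers, all `d` (helper20)
-/

set_option autoImplicit false

namespace Pool.Agent.GC2

open Finset

/-- a sequence with growth `r >= 1` from a nonnegative start -/
theorem seq_ge {v : ℕ → ℝ} {n0 : ℕ} {r : ℝ} (hr : 1 ≤ r) (h0 : 0 ≤ v n0)
    (hs : ∀ n, n0 ≤ n → r * v n ≤ v (n + 1)) : ∀ n, n0 ≤ n → v n0 ≤ v n := by
  intro n hn
  induction n, hn using Nat.le_induction with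
  | base => exact le_rfl
  | succ n hn ih =>
    refine ih.trans (le_trans ?_ (hs n hn))
    nlinarith

/-- regime B, the induction -/
theorem ind_b {p : ℝ} (hp : 42 ≤ p) (v : ℕ → ℝ) (nb : ℕ)
    (hs : ∀ n, nb ≤ n → (1 + 4 / p ^ 2) * v n ≤ v (n + 1))
    (h1 : (p - 1) * (p - 3) + 1 ≤ 2 * nb) (h2 : 2 * (nb : ℝ) ≤ (p - 1) * (p - 3) + 2)
    (h3 : 1.6 * nb ≤ v nb) : ∀ n : ℕ, nb ≤ n → 50 * (n : ℝ) ≤ 37 * (p - 1) ^ 2 →
      10 / 9 * ((p - 2) * (p - 3)) * (n * ((n : ℝ) - 1)) ≤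
        v n ^ 2 * ((p - 2) ^ 2 - ((n : ℝ) - 1)) := by
  have hnb : (0 : ℝ) < nb := by nlinarith
  have hv0 : 0 ≤ v nb := by linarith
  have ht0 : 0 < 4 / p ^ 2 := by positivity
  intro n hn
  induction n, hn using Nat.le_induction with
  | base =>
    intro _
    have h4 : (1.6 * (nb : ℝ)) ^ 2 ≤ v nb ^ 2 := pow_le_pow_left₀ (by positivity) h3 2
    have h5 : (p ^ 2 - 4 * p + 5) / 2 ≤ (p - 2) ^ 2 - ((nb : ℝ) - 1) := by nlinarith
    have h6 : 0 ≤ (p ^ 2 - 4 * p + 5) / 2 := by nlinarith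
    have h7 : (1.6 * (nb : ℝ)) ^ 2 * ((p ^ 2 - 4 * p + 5) / 2) ≤
        v nb ^ 2 * ((p - 2) ^ 2 - ((nb : ℝ) - 1)) := mul_le_mul h4 h5 h6 (by positivity)
    refine le_trans ?_ h7
    have h8 : (p - 2) * (p - 3) ≤ p ^ 2 - 4 * p + 5 := by nlinarith
    have h9 : 0 ≤ (p - 2) * (p - 3) := mul_nonneg (by linarith) (by linarith)
    have h10 : (nb : ℝ) * ((nb : ℝ) - 1) ≤ (nb : ℝ) ^ 2 := by nlinarith
    calc 10 / 9 * ((p - 2) * (p - 3)) * (nb * ((nb : ℝ) - 1))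
        ≤ 10 / 9 * ((p - 2) * (p - 3)) * (nb : ℝ) ^ 2 :=
          mul_le_mul_of_nonneg_left h10 (by positivity)
      _ ≤ 1.28 * (p ^ 2 - 4 * p + 5) * (nb : ℝ) ^ 2 := by
          apply mul_le_mul_of_nonneg_right _ (by positivity)
          linarith
      _ = _ := by ring
  | succ n hn ih =>
    intro h50
    have h50' : 50 * (n : ℝ) ≤ 37 * (p - 1) ^ 2 := by
      push_cast at h50
      linarith
    have ih' := ih h50'
    have hnn : (nb : ℝ) ≤ n := by exact_mod_cast hn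
    have hn2 : (2 : ℝ) ≤ n := by nlinarith
    have hg := growB hp (n := n) (by linarith) h50'
    have hv := hs n hn
    have hvn : 0 ≤ v n := hv0.trans (seq_ge (by linarith) hv0 hs n hn)
    have e1 : (((n + 1 : ℕ) : ℝ) - 1) = n := by push_cast; ring
    rw [e1]
    set A : ℝ := (p - 2) ^ 2 - ((n : ℝ) - 1) with hA
    have e2 : (p - 2) ^ 2 - (n : ℝ) = A - 1 := by rw [hA]; ring
    rw [e2]
    have hA1 : 0 ≤ A - 1 := by
      rw [hA]
      nlinarith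
    have h5 : ((1 + 4 / p ^ 2) * v n) ^ 2 ≤ v (n + 1) ^ 2 :=
      pow_le_pow_left₀ (by positivity) hv 2
    have h6 : (1 + 2 * (4 / p ^ 2)) * v n ^ 2 ≤ v (n + 1) ^ 2 := by
      refine le_trans ?_ h5
      rw [mul_pow]
      apply mul_le_mul_of_nonneg_right _ (by positivity)
      nlinarith
    have h7 : (10 / 9 * ((p - 2) * (p - 3)) * (((n + 1 : ℕ) : ℝ) * n)) * ((n : ℝ) - 1) ≤
        (v (n + 1) ^ 2 * (A - 1)) * ((n : ℝ) - 1) := by
      calc (10 / 9 * ((p - 2) * (p - 3)) * (((n + 1 : ℕ) : ℝ) * n)) * ((n : ℝ) - 1)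
          = (10 / 9 * ((p - 2) * (p - 3)) * (n * ((n : ℝ) - 1))) * (n + 1) := by
            push_cast
            ring
        _ ≤ (v n ^ 2 * A) * (n + 1) := mul_le_mul_of_nonneg_right ih' (by linarith)
        _ = v n ^ 2 * (A * (n + 1)) := by ring
        _ ≤ v n ^ 2 * ((1 + 2 * (4 / p ^ 2)) * ((A - 1) * (n - 1))) :=
            mul_le_mul_of_nonneg_left hg (by positivity)
        _ = ((1 + 2 * (4 / p ^ 2)) * v n ^ 2) * ((A - 1) * (n - 1)) := by ring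
        _ ≤ v (n + 1) ^ 2 * ((A - 1) * (n - 1)) :=
            mul_le_mul_of_nonneg_right h6 (mul_nonneg hA1 (by linarith))
        _ = _ := by ring
    exact le_of_mul_le_mul_right h7 (by linarith)

/-- regime C, the induction -/
theorem ind_c {p : ℝ} (hp : 42 ≤ p) (v : ℕ → ℝ) (nc : ℕ)
    (hs : ∀ n, nc ≤ n → (1 + 4 / p ^ 2) * v n ≤ v (n + 1))
    (h1 : 0.74 * (p - 1) ^ 2 ≤ nc) (h2 : (nc : ℝ) ≤ 0.74 * (p - 1) ^ 2 + 1)
    (h3 : 3 * (0.74 * (p - 1) ^ 2 + 1) ≤ v nc)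
    (h4 : 4 * (0.74 * (p - 1) ^ 2 + 1) ^ 2 ≤ v nc * ((p - 1) * (p - 2))) :
    ∀ n : ℕ, nc ≤ n → 3 * (n : ℝ) ≤ v n ∧ 4 * (n : ℝ) ^ 2 ≤ v n * ((p - 1) * (p - 2)) := by
  have hp0 : 0 < p ^ 2 := by positivity
  have hpp : 0 ≤ (p - 1) * (p - 2) := mul_nonneg (by linarith) (by linarith)
  intro n hn
  induction n, hn using Nat.le_induction with
  | base =>
    have hnc0 : (0 : ℝ) ≤ nc := Nat.cast_nonneg _
    refine ⟨by linarith, le_trans ?_ h4⟩
    have := pow_le_pow_left₀ hnc0 h2 2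
    linarith
  | succ n hn ih =>
    have hnn : (nc : ℝ) ≤ n := by exact_mod_cast hn
    have hv := hs n hn
    obtain ⟨ih1, ih2⟩ := ih
    have hn1 : 0.74 * (p - 1) ^ 2 ≤ n := h1.trans hnn
    have htn : 2.5 ≤ 4 / p ^ 2 * n := by
      rw [div_mul_eq_mul_div, le_div_iff₀ hp0]
      nlinarith
    have hn2 : (2 : ℝ) ≤ n := by nlinarith
    constructor
    · refine le_trans ?_ hv
      push_cast
      have : (1 + 4 / p ^ 2) * (3 * (n : ℝ)) ≤ (1 + 4 / p ^ 2) * v n :=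
        mul_le_mul_of_nonneg_left ih1 (by positivity)
      nlinarith
    · have h5 : ((1 + 4 / p ^ 2) * v n) * ((p - 1) * (p - 2)) ≤ v (n + 1) * ((p - 1) * (p - 2)) :=
        mul_le_mul_of_nonneg_right hv hpp
      refine le_trans ?_ h5
      have h6 : (1 + 4 / p ^ 2) * (4 * (n : ℝ) ^ 2) ≤
          (1 + 4 / p ^ 2) * (v n * ((p - 1) * (p - 2))) :=
        mul_le_mul_of_nonneg_left ih2 (by positivity)
      have h7 : (1 + 4 / p ^ 2) * v n * ((p - 1) * (p - 2)) =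
          (1 + 4 / p ^ 2) * (v n * ((p - 1) * (p - 2))) := by ring
      rw [h7]
      refine le_trans ?_ h6
      push_cast
      have h8 : (2.5 : ℝ) * n ≤ 4 / p ^ 2 * n * n := mul_le_mul_of_nonneg_right htn (by linarith)
      nlinarith

/-- the contradiction in regime B -/
theorem regB {a m n N : ℕ} {p v : ℝ} (hp : 42 ≤ p) (hap : (a : ℝ) = p - 1) (h : Cnt a m n N)
    (hn : 50 * n ≤ 37 * a ^ 2) (hnA : n ≤ (a - 1) ^ 2) (hv : v < m)
    (hv1 : 0.8 * (p - 2) ^ 2 ≤ v)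
    (hv2 : 10 / 9 * ((p - 2) * (p - 3)) * (n * ((n : ℝ) - 1)) ≤
        v ^ 2 * ((p - 2) ^ 2 - ((n : ℝ) - 1))) : False := by
  have ha41 : 41 ≤ a := by
    have : (41 : ℝ) ≤ a := by rw [hap]; linarith
    exact_mod_cast this
  have hna := h.pos (by omega)
  have hle := h.le
  have hN1 := h.one
  have hn2a : n < a ^ 2 := by
    have : 0 < a ^ 2 := by positivity
    omega
  -- `N <= (37/13)(a-1)`
  have h1 := h.sm1 (by omega) hn2a
  have hn1 : (1 : ℝ) ≤ n := by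
    have : 1 ≤ n := by omega
    exact_mod_cast this
  have h1' : (N : ℝ) * ((a : ℝ) ^ 2 - n) ≤ n * ((a : ℝ) - 1) := by
    have h2 : ((N * (a ^ 2 - n) : ℕ) : ℝ) ≤ ((n * (a - 1) : ℕ) : ℝ) := by exact_mod_cast h1
    rw [Nat.cast_mul, Nat.cast_mul, Nat.cast_sub hn2a.le, Nat.cast_sub (by omega : 1 ≤ a)] at h2
    simpa using h2
  have hn' : 50 * (n : ℝ) ≤ 37 * (a : ℝ) ^ 2 := by exact_mod_cast hn
  have hN0 : (0 : ℝ) < N := by exact_mod_cast hN1
  have ha0 : (0 : ℝ) < a := by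
    have : 0 < a := by omega
    exact_mod_cast this
  have h2 : 13 * (N : ℝ) ≤ 37 * ((a : ℝ) - 1) := by
    have h3 : (N : ℝ) * (13 * (a : ℝ) ^ 2) ≤ (37 * ((a : ℝ) - 1)) * (a : ℝ) ^ 2 := by
      have h4 : (N : ℝ) * (13 * (a : ℝ) ^ 2) ≤ 50 * ((N : ℝ) * ((a : ℝ) ^ 2 - n)) := by nlinarith
      have h5 : 50 * ((n : ℝ) * ((a : ℝ) - 1)) ≤ (37 * (a : ℝ) ^ 2) * ((a : ℝ) - 1) := by
        have : (0 : ℝ) ≤ (a : ℝ) - 1 := by rw [hap]; linarith
        nlinarith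
      nlinarith
    have h4 : (13 * (N : ℝ)) * (a : ℝ) ^ 2 ≤ (37 * ((a : ℝ) - 1)) * (a : ℝ) ^ 2 := by
      calc _ = (N : ℝ) * (13 * (a : ℝ) ^ 2) := by ring
        _ ≤ _ := h3
    exact le_of_mul_le_mul_right h4 (by positivity)
  have h3 : 10 * (N : ℝ) ≤ v := by
    refine le_trans ?_ hv1
    rw [hap] at h2
    nlinarith
  have hv0 : 0 ≤ v := by nlinarith
  -- upper bound
  obtain ⟨M, h4, h5⟩ := h.two (by omega)
  have hnA' : n - 1 < (a - 1) ^ 2 := by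
    have : 1 ≤ n := by omega
    omega
  obtain ⟨M', h6, h7⟩ := fam_j2 h5 (by omega) (by omega) hnA'
  have hNm : N ≤ m := by
    have : (N : ℝ) ≤ m := by linarith
    exact_mod_cast this
  set A : ℕ := (a - 1) ^ 2 - (n - 1) with hA
  have h8 : m * (m - N) * A ≤ n * (n - 1) * ((a - 1) * (a - 2)) := by
    calc m * (m - N) * A ≤ (a * N) * (m - N) * A :=
          Nat.mul_le_mul_right _ (Nat.mul_le_mul_right _ hle)
      _ = a * (N * (m - N)) * A := by ring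
      _ ≤ a * (M * (a - 1)) * A := Nat.mul_le_mul_right _ (Nat.mul_le_mul_left _ h4)
      _ = (M * a) * (a - 1) * A := by ring
      _ ≤ (n * M') * (a - 1) * A := Nat.mul_le_mul_right _ (Nat.mul_le_mul_right _ h6)
      _ = n * (a - 1) * (M' * A) := by ring
      _ ≤ n * (a - 1) * ((n - 1) * (a - 2)) := Nat.mul_le_mul_left _ h7
      _ = _ := by ring
  have hAr : (A : ℝ) = (p - 2) ^ 2 - ((n : ℝ) - 1) := by
    rw [hA, Nat.cast_sub hnA'.le, Nat.cast_pow, Nat.cast_sub (by omega : 1 ≤ a),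
      Nat.cast_sub (by omega : 1 ≤ n), hap]
    push_cast
    ring
  have hA0 : (0 : ℝ) < A := by
    have : 0 < A := by omega
    exact_mod_cast this
  have h9 : (m : ℝ) * ((m : ℝ) - N) * A ≤ n * ((n : ℝ) - 1) * ((p - 2) * (p - 3)) := by
    have h10 : ((m * (m - N) * A : ℕ) : ℝ) ≤ ((n * (n - 1) * ((a - 1) * (a - 2)) : ℕ) : ℝ) := by
      exact_mod_cast h8
    rw [Nat.cast_mul, Nat.cast_mul, Nat.cast_sub hNm, Nat.cast_mul, Nat.cast_mul, Nat.cast_mul,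
      Nat.cast_sub (by omega : 1 ≤ n), Nat.cast_sub (by omega : 1 ≤ a),
      Nat.cast_sub (by omega : 2 ≤ a), hap] at h10
    refine h10.trans (le_of_eq ?_)
    push_cast
    ring
  rw [← hAr] at hv2
  -- `m (m - N) >= (9/10) m^2 > (9/10) v^2`
  have h10 : (9 / 10 : ℝ) * v ^ 2 < (m : ℝ) * ((m : ℝ) - N) := by
    have hm0 : (0 : ℝ) < m := by linarith
    have h11 : (9 / 10 : ℝ) * m ≤ (m : ℝ) - N := by linarith
    have h12 : (m : ℝ) * ((9 / 10 : ℝ) * m) ≤ (m : ℝ) * ((m : ℝ) - N) :=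
      mul_le_mul_of_nonneg_left h11 hm0.le
    have h13 : v ^ 2 < (m : ℝ) ^ 2 := pow_lt_pow_left₀ hv hv0 (by norm_num)
    nlinarith
  have h11 : (9 / 10 : ℝ) * v ^ 2 * A < (m : ℝ) * ((m : ℝ) - N) * A :=
    mul_lt_mul_of_pos_right h10 hA0
  nlinarith

end Pool.Agent.GC2
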