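import Pool.Agent.Lib_helper20.GC2.LargeC

/-!
# MP_de0e04: the numbers, all `d` (helper20)
-/

set_option autoImplicit false

namespace Pool.Agent.GC2

open Finset

/-- the numbers for `d >= 40` -/
theorem large {d m N D : ℕ} (hd : 40 ≤ d) (hc : Cnt (d + 1) m (D + 1 - d) N) :
    ∃ U, Rule d U ∧ m ≤ U (D : ℤ) := by
  have hna := hc.pos (by omega)
  have hle := hc.le
  have hN1 := hc.one
  set p : ℝ := (d : ℝ) + 2 with hp
  have hdr : (40 : ℝ) ≤ d := by exact_mod_cast hd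
  have hp42 : 42 ≤ p := by rw [hp]; linarith
  have hp0 : 0 < p := by linarith
  set D1 : ℕ := ((d + 2) ^ 2 + 10 * (d + 2) + 4) / 8 with hD1
  have hD1a : 8 * D1 ≤ (d + 2) ^ 2 + 10 * (d + 2) + 4 := Nat.mul_div_le _ _
  have hD1b : (d + 2) ^ 2 + 10 * (d + 2) + 4 < 8 * (D1 + 1) := Nat.lt_mul_div_succ _ (by norm_num)
  have hD1c : 8 * (D1 : ℝ) ≤ p ^ 2 + 10 * p + 4 := by
    rw [hp]
    exact_mod_cast hD1a
  have hD1d : p ^ 2 + 10 * p - 3 ≤ 8 * (D1 : ℝ) := by
    have h1 : (((d + 2) ^ 2 + 10 * (d + 2) + 4 + 1 : ℕ) : ℝ) ≤ ((8 * (D1 + 1) : ℕ) : ℝ) := by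
      exact_mod_cast hD1b
    push_cast at h1
    rw [hp]
    linarith
  have hdD1 : d ≤ D1 := by
    have : 8 * d < 8 * (D1 + 1) := by nlinarith
    omega
  clear_value D1
  set B : ℝ := (p ^ 2 - 6 * p + 7) / 8 with hB
  have hB0 : 0 ≤ B := by rw [hB]; nlinarith
  set Y : ℝ := D1 + B with hY
  have hYge : (p ^ 2 + 2 * p + 2) / 4 ≤ Y := by rw [hY, hB]; linarith
  have hY0 : 0 ≤ Y := le_trans (by positivity) hYge
  have ht0 : 0 < 4 / p ^ 2 := by positivity
  set r : ℝ := 1 + 4 / p ^ 2 with hr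
  have hr1 : 1 ≤ r := by rw [hr]; linarith
  have hwin : ∀ h : ℕ, h ≤ d → Y * (r ^ h)⁻¹ - B ≤
      ((fun D : ℤ => min D.toNat D1) ((D1 : ℤ) - h) : ℕ) := by
    intro h hh
    have h1 := window hp42 (t := 4 / p ^ 2) rfl hYge h (by
      rw [hp]
      have : (h : ℝ) ≤ d := by exact_mod_cast hh
      linarith)
    have h2 : (fun D : ℤ => min D.toNat D1) ((D1 : ℤ) - h) = D1 - h := by
      show min ((D1 : ℤ) - h).toNat D1 = D1 - h
      omega
    rw [h2, Nat.cast_sub (hh.trans hdD1)]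
    rw [hY] at h1 ⊢
    linarith
  have hnn : 0 ≤ Y * (r ^ d)⁻¹ - B := by
    have h1 := inv_pow_ge (t := 4 / p ^ 2) ht0.le d
    have h2 : Y * (1 - d * (4 / p ^ 2)) ≤ Y * (r ^ d)⁻¹ := mul_le_mul_of_nonneg_left h1 hY0
    have h3 : (1 : ℝ) / 2 ≤ 1 - d * (4 / p ^ 2) := by
      have h4 : (d : ℝ) * (4 / p ^ 2) ≤ 1 / 2 := by
        rw [mul_div_assoc', div_le_iff₀ (by positivity)]
        have : (d : ℝ) = p - 2 := by rw [hp]; ring
        rw [this]
        nlinarith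
      linarith
    have h4 : (p ^ 2 + 2 * p + 2) / 4 * (1 / 2) ≤ Y * (1 - d * (4 / p ^ 2)) :=
      mul_le_mul hYge h3 (by norm_num) hY0
    have h5 : B ≤ (p ^ 2 + 2 * p + 2) / 4 * (1 / 2) := by
      rw [hB]
      linarith
    linarith
  obtain ⟨U, hU1, hU2, hU3⟩ := rule_exp (rule_triv d D1) D1 (Y := Y) (B := B) hY0
    (Or.inr ⟨by rw [← hp]; nlinarith, by rw [← hp, hB]⟩) (by rw [← hp]; exact hwin)
    (by rw [← hp]; exact hnn)
  rw [← hp] at hU3
  refine ⟨U, hU1, ?_⟩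
  -- first case
  rcases Nat.lt_or_ge D m with hm | hm
  swap
  · rcases Nat.lt_or_ge D1 D with h1 | h1
    · obtain ⟨h, rfl⟩ : ∃ h, D = D1 + h := ⟨D - D1, by omega⟩
      have e : ((D1 + h : ℕ) : ℤ) = (D1 : ℤ) + h := by push_cast; ring
      rw [e]
      apply hU3 h m (by omega)
      have h2 := one_add_mul_le_pow (R := ℝ) (a := 4 / p ^ 2) (by linarith) h
      have h3 : Y * (1 + h * (4 / p ^ 2)) ≤ Y * r ^ h := mul_le_mul_of_nonneg_left h2 hY0
      have h4 : 1 ≤ Y * (4 / p ^ 2) := by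
        rw [mul_div_assoc', le_div_iff₀ (by positivity)]
        nlinarith
      have h5 : (h : ℝ) ≤ h * (Y * (4 / p ^ 2)) :=
        le_mul_of_one_le_right (Nat.cast_nonneg _) h4
      have h6 : (m : ℝ) ≤ D1 + h := by exact_mod_cast hm
      refine h6.trans ?_
      have h7 : Y * (1 + h * (4 / p ^ 2)) = Y + h * (Y * (4 / p ^ 2)) := by ring
      rw [h7] at h3
      rw [hY] at h3 h5 ⊢
      linarith
    · have h2 := hU2 (D : ℤ)
      have h3 : min (D : ℤ).toNat D1 = D := by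
        rw [Int.toNat_natCast]
        omega
      have h4 : min (D : ℤ).toNat D1 ≤ U (D : ℤ) := h2
      omega
  -- second case
  set n : ℕ := D + 1 - d with hn
  have hDn : D = n + d - 1 := by omega
  by_cases hA : 2 * n ≤ (d + 1) * (d + 1 - 2)
  · exact (regA (by omega) hA hc (by omega)).elim
  push Not at hA
  have e1 : d + 1 - 2 = d - 1 := by omega
  rw [e1] at hA
  have hAr : (p - 1) * (p - 3) + 1 ≤ 2 * (n : ℝ) := by
    have h1 : (((d + 1) * (d - 1) + 1 : ℕ) : ℝ) ≤ ((2 * n : ℕ) : ℝ) := by exact_mod_cast hA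
    rw [Nat.cast_add, Nat.cast_mul, Nat.cast_sub (by omega : 1 ≤ d)] at h1
    push_cast at h1
    rw [hp]
    linarith
  -- the sequence
  let v : ℕ → ℝ := fun n => Y * r ^ (n + d - 1 - D1) - B
  have hvs : ∀ n0 : ℕ, D1 ≤ n0 + d - 1 → ∀ n, n0 ≤ n → r * v n ≤ v (n + 1) := by
    intro n0 h0 n hn0
    show r * (Y * r ^ (n + d - 1 - D1) - B) ≤ Y * r ^ (n + 1 + d - 1 - D1) - B
    have e : n + 1 + d - 1 - D1 = (n + d - 1 - D1) + 1 := by omega
    rw [e, pow_succ]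
    nlinarith
  have hcase : ∀ n0 : ℕ, (n0 : ℝ) ≤ n → D1 < n0 + d - 1 → v n < m ∨ m ≤ U (D : ℤ) := by
    intro n0 h0 h1
    have h0' : n0 ≤ n := by exact_mod_cast h0
    by_contra hcon
    push Not at hcon
    obtain ⟨h, hh⟩ : ∃ h, D = D1 + h := ⟨D - D1, by omega⟩
    have e2 : n + d - 1 - D1 = h := by omega
    have h2 : (m : ℝ) ≤ Y * r ^ h - B := by
      have h3 := hcon.1
      change (m : ℝ) ≤ Y * r ^ (n + d - 1 - D1) - B at h3
      rw [e2] at h3
      exact h3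
    have h3 := hU3 h m (by omega) h2
    have e : ((D : ℕ) : ℤ) = (D1 : ℤ) + h := by rw [hh]; push_cast; ring
    rw [e] at hcon
    omega
  have hap : ((d + 1 : ℕ) : ℝ) = p - 1 := by rw [hp]; push_cast; ring
  by_cases hC : 50 * n ≤ 37 * (d + 1) ^ 2
  · -- regime B
    have hCr : 50 * (n : ℝ) ≤ 37 * (p - 1) ^ 2 := by
      have h1 : ((50 * n : ℕ) : ℝ) ≤ ((37 * (d + 1) ^ 2 : ℕ) : ℝ) := by exact_mod_cast hC
      rw [← hap]
      push_cast at h1 ⊢
      exact h1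
    set nb : ℕ := ((d + 1) * (d - 1)) / 2 + 1 with hnb
    have hnb1 : (d + 1) * (d - 1) + 1 ≤ 2 * nb := by omega
    have hnb2 : 2 * nb ≤ (d + 1) * (d - 1) + 2 := by omega
    have hnb3 : nb ≤ n := by omega
    have hnb1r : (p - 1) * (p - 3) + 1 ≤ 2 * (nb : ℝ) := by
      have h1 : (((d + 1) * (d - 1) + 1 : ℕ) : ℝ) ≤ ((2 * nb : ℕ) : ℝ) := by exact_mod_cast hnb1
      rw [Nat.cast_add, Nat.cast_mul, Nat.cast_sub (by omega : 1 ≤ d)] at h1
      push_cast at h1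
      rw [hp]
      linarith
    have hnb2r : 2 * (nb : ℝ) ≤ (p - 1) * (p - 3) + 2 := by
      have h1 : ((2 * nb : ℕ) : ℝ) ≤ (((d + 1) * (d - 1) + 2 : ℕ) : ℝ) := by exact_mod_cast hnb2
      rw [Nat.cast_add, Nat.cast_mul ((d + 1) : ℕ), Nat.cast_sub (by omega : 1 ≤ d)] at h1
      push_cast at h1
      rw [hp]
      linarith
    have hnbD : D1 < nb + d - 1 := by
      have h1 : (D1 : ℝ) + 1 < nb + d := by
        have : (d : ℝ) = p - 2 := by rw [hp]; ring
        rw [this]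
        nlinarith
      have h2 : D1 + 1 < nb + d := by exact_mod_cast h1
      omega
    clear_value nb
    have hkb : (3 * p ^ 2 - 18 * p - 12) / (2 * (p ^ 2 + 4)) ≤
        4 * ((nb + d - 1 - D1 : ℕ) : ℝ) / (p ^ 2 + 4) := by
      rw [Nat.cast_sub (by omega), Nat.cast_sub (by omega), Nat.cast_add]
      rw [div_le_div_iff₀ (by positivity) (by positivity)]
      have h1 : (3 * p ^ 2 - 18 * p - 12) ≤ 8 * ((nb : ℝ) + d - (1 : ℕ) - D1) := by
        have : (d : ℝ) = p - 2 := by rw [hp]; ring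
        rw [this]
        push_cast
        nlinarith
      have h2 : 0 < p ^ 2 + 4 := by positivity
      nlinarith
    have hexp := pow_ge_exp hp0 (nb + d - 1 - D1) _ 1.4 hkb
    have hvb := val_b hp42 hYge hB rfl hexp
    have hvb' : 1.6 * (nb : ℝ) ≤ v nb := by
      have : 1.6 * (nb : ℝ) ≤ 1.6 * ((p ^ 2 - 4 * p + 5) / 2) := by nlinarith
      exact this.trans hvb
    have hs := hvs nb (by omega)
    have hvnb0 : 0 ≤ v nb := by
      have : (0 : ℝ) ≤ nb := Nat.cast_nonneg _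
      linarith
    have hnbr : (nb : ℝ) ≤ n := by exact_mod_cast hnb3
    rcases hcase nb hnbr hnbD with hv | hv
    swap
    · exact hv
    have h1 := ind_b hp42 v nb (fun n hn => hs n hn) hnb1r hnb2r hvb' n hnb3 hCr
    have h2 := seq_ge hr1 hvnb0 hs n hnb3
    refine (regB hp42 hap hc hC ?_ hv ?_ h1).elim
    · have h3 : (n : ℝ) ≤ (p - 2) ^ 2 := by nlinarith
      have h4 : ((d + 1 - 1 : ℕ) : ℝ) = p - 2 := by
        rw [Nat.add_sub_cancel, hp]
        ring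
      have h5 : (n : ℝ) ≤ (((d + 1 - 1) ^ 2 : ℕ) : ℝ) := by
        rw [Nat.cast_pow, h4]
        exact h3
      exact_mod_cast h5
    · refine le_trans ?_ h2
      refine le_trans ?_ hvb'
      nlinarith
  · -- regime C
    push Not at hC
    set nc : ℕ := (37 * (d + 1) ^ 2) / 50 + 1 with hnc
    have hnc1 : 37 * (d + 1) ^ 2 < 50 * nc := Nat.lt_mul_div_succ _ (by norm_num)
    have hnc2 : 50 * nc ≤ 37 * (d + 1) ^ 2 + 50 := by
      have := Nat.mul_div_le (37 * (d + 1) ^ 2) 50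
      omega
    have hnc3 : nc ≤ n := by
      have : (37 * (d + 1) ^ 2) / 50 < n := Nat.div_lt_of_lt_mul hC
      omega
    have hnc1r : 0.74 * (p - 1) ^ 2 ≤ (nc : ℝ) := by
      have h1 : ((37 * (d + 1) ^ 2 : ℕ) : ℝ) ≤ ((50 * nc : ℕ) : ℝ) := by exact_mod_cast hnc1.le
      rw [← hap]
      push_cast at h1 ⊢
      linarith
    have hnc2r : (nc : ℝ) ≤ 0.74 * (p - 1) ^ 2 + 1 := by
      have h1 : ((50 * nc : ℕ) : ℝ) ≤ ((37 * (d + 1) ^ 2 + 50 : ℕ) : ℝ) := by exact_mod_cast hnc2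
      rw [← hap]
      push_cast at h1 ⊢
      linarith
    have hncD : D1 < nc + d - 1 := by
      have h1 : (D1 : ℝ) + 1 < nc + d := by
        have : (d : ℝ) = p - 2 := by rw [hp]; ring
        rw [this]
        nlinarith
      have h2 : D1 + 1 < nc + d := by exact_mod_cast h1
      omega
    clear_value nc
    have hkc : (2.46 * p ^ 2 - 6.92 * p - 11.04) / (p ^ 2 + 4) ≤
        4 * ((nc + d - 1 - D1 : ℕ) : ℝ) / (p ^ 2 + 4) := by
      rw [Nat.cast_sub (by omega), Nat.cast_sub (by omega), Nat.cast_add]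
      apply div_le_div_of_nonneg_right _ (by positivity)
      have : (d : ℝ) = p - 2 := by rw [hp]; ring
      rw [this]
      push_cast
      nlinarith
    have hexp := pow_ge_exp hp0 (nc + d - 1 - D1) _ 2.4 hkc
    obtain ⟨hvc1, hvc2⟩ := val_c hp42 hYge hB rfl hexp
    have hs := hvs nc (by omega)
    have hncr : (nc : ℝ) ≤ n := by exact_mod_cast hnc3
    rcases hcase nc hncr hncD with hv | hv
    swap
    · exact hv
    obtain ⟨h1, h2⟩ := ind_c hp42 v nc (fun n hn => hs n hn) hnc1r hnc2r hvc1 hvc2 n hnc3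
    refine (regC (by omega) hc ?_ ?_).elim
    · have h3 : 3 * (n : ℝ) ≤ m := by linarith
      exact_mod_cast h3
    · have h3 : ((d + 1 - 1 : ℕ) : ℝ) = p - 2 := by
        rw [Nat.add_sub_cancel, hp]
        ring
      have h4 : 4 * (n : ℝ) ^ 2 ≤ m * ((p - 1) * (p - 2)) := by
        refine h2.trans (mul_le_mul_of_nonneg_right hv.le ?_)
        exact mul_nonneg (by linarith) (by linarith)
      have h5 : ((4 * n ^ 2 : ℕ) : ℝ) ≤ ((m * ((d + 1) * (d + 1 - 1)) : ℕ) : ℝ) := by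
        rw [Nat.cast_mul m, Nat.cast_mul (d + 1), h3, hap]
        push_cast
        exact h4
      exact_mod_cast h5

/-- THE NUMBERS -/
theorem numbers {d m N D : ℕ} (hd : 1 ≤ d) (hc : Cnt (d + 1) m (D + 1 - d) N) :
    ∃ U, Rule d U ∧ m ≤ U (D : ℤ) := by
  rcases Nat.lt_or_ge d 40 with h | h
  · exact small hd (runs hd h) hc
  · exact large h hc

end Pool.Agent.GC2
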