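import Pool.Agent.Lib_helper20.GC2.Numbers
import Pool.Agent.Lib_helper19.GC2.Rec

/-!
# MP_de0e04: the numbers for the rule of the recursion (helper20)
-/

set_option autoImplicit false

namespace Pool.Agent.GC2

theorem nums (δ D m N : ℕ) (h1 : 1 ≤ δ) (h2 : δ ≤ D) (h : Cnt (δ + 1) m (D - δ + 1) N) :
    ∃ U : ℤ → ℕ, Pool.Agent.KAL.Rule δ U ∧ m ≤ U D := by
  have e : D - δ + 1 = D + 1 - δ := by omega
  rw [e] at h
  obtain ⟨U, hU, hm⟩ := numbers h1 h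
  exact ⟨U, ⟨hU.mono, hU.neg, hU.step⟩, hm⟩

end Pool.Agent.GC2
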