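import Mathlib

/-!
# MP_de0e04: the thresholds (helper20)
-/

set_option autoImplicit false

namespace Pool.Agent.GC2

/-- thresholds for capacities at most `d` -/
structure Rule (d : ℕ) (U : ℤ → ℕ) : Prop where
  mono : Monotone U
  neg : ∀ D : ℤ, D ≤ 0 → U D = 0
  step : ∀ (D : ℤ) (m : ℕ), 1 ≤ m → m ≤ U D → m ≤ U (D - 1) + 1 ∨
    ∀ k, k ≤ d → ∀ j, j < k → m - j - (m + 1) / (j + 2) ≤ U (D - k + j)

/-- the open condition in exact form -/
theorem open_exact {m j w : ℕ} (h : m ≤ w + w / (j + 1) + (j + 1)) :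
    m - j - (m + 1) / (j + 2) ≤ w := by
  by_contra hcon
  push Not at hcon
  set Q := (m + 1) / (j + 2) with hQ
  set q := w / (j + 1) with hq
  have h1 : (j + 2) * Q ≤ m + 1 := Nat.mul_div_le _ _
  have h2 : m + 1 < (j + 2) * (Q + 1) := Nat.lt_mul_div_succ _ (by omega)
  have h3 : (j + 1) * q ≤ w := Nat.mul_div_le _ _
  have h4 : w + j + Q + 1 ≤ m := by omega
  have h5 : Q ≤ q := by omega
  have h6 : (j + 1) * Q ≤ (j + 1) * q := Nat.mul_le_mul_left _ h5
  have h7 : (j + 2) * (Q + 1) = (j + 1) * Q + Q + j + 2 := by ring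
  omega

/-- the open condition for real thresholds -/
theorem open_real {m j : ℕ} {v w : ℝ} (hm : (m : ℝ) ≤ v)
    (h : (j + 1) * v ≤ (j + 2) * w + j * (j + 1)) (hw : 0 ≤ w) :
    ((m - j - (m + 1) / (j + 2) : ℕ) : ℝ) ≤ w := by
  have h2 : m + 1 < (j + 2) * ((m + 1) / (j + 2) + 1) := Nat.lt_mul_div_succ _ (by omega)
  generalize (m + 1) / (j + 2) = Q at h2 ⊢
  by_cases h0 : m - j - Q = 0
  · rw [h0]
    simpa using hw
  have h0' : j + Q < m := by
    by_contra h
    exact h0 (by omega)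
  have e : ((m - j - Q : ℕ) : ℝ) = (m : ℝ) - j - Q := by
    have e1 : Q ≤ m - j := by omega
    have e2 : j ≤ m := by omega
    rw [Nat.cast_sub e1, Nat.cast_sub e2]
  rw [e]
  have h3 : (m : ℝ) + 1 + 1 ≤ ((j : ℝ) + 2) * (Q + 1) := by exact_mod_cast h2
  have h4 : ((j : ℝ) + 1) * m ≤ (j + 1) * v := mul_le_mul_of_nonneg_left hm (by positivity)
  have hj : (0 : ℝ) < (j : ℝ) + 2 := by positivity
  -- `(j+2) (m - j - Q) <= (j+2) m - j (j+2) - (m + 2 - (j+2)) = (j+1) (m - j)`
  have h5 : ((j : ℝ) + 2) * ((m : ℝ) - j - Q) ≤ (j + 2) * w := by nlinarith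
  exact le_of_mul_le_mul_left h5 hj

/-- the trivial thresholds -/
theorem rule_triv (d : ℕ) (D1 : ℕ) : Rule d (fun D => min D.toNat D1) where
  mono := by
    intro D D' h
    show min D.toNat D1 ≤ min D'.toNat D1
    omega
  neg := by
    intro D h
    show min D.toNat D1 = 0
    omega
  step := by
    intro D m _ hm
    left
    have hm' : m ≤ min D.toNat D1 := hm
    show m ≤ min (D - 1).toNat D1 + 1
    omega

/-- extension by a real function -/
theorem rule_ext {d : ℕ} {U0 : ℤ → ℕ} (h0 : Rule d U0) (D1 : ℤ) (hD1 : 0 ≤ D1) (V : ℤ → ℝ)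
    (hmono : Monotone V) (h1 : ∀ D, D1 - d ≤ D → D ≤ D1 → V D ≤ U0 D)
    (h2 : ∀ D, D1 < D → ∀ j : ℕ, j < d → (j + 1) * V D ≤ (j + 2) * V (D - d + j) + j * (j + 1))
    (h3 : ∀ D, D1 - d ≤ D → 0 ≤ V D) :
    Rule d (fun D => if D ≤ D1 then U0 D else max (U0 D) ⌊V D⌋₊) where
  mono := by
    intro D D' h
    show (if D ≤ D1 then U0 D else max (U0 D) ⌊V D⌋₊) ≤
      (if D' ≤ D1 then U0 D' else max (U0 D') ⌊V D'⌋₊)
    split_ifs with a1 a2
    · exact h0.mono h
    · exact le_max_of_le_left (h0.mono h)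
    · omega
    · exact max_le_max (h0.mono h) (Nat.floor_le_floor (hmono h))
  neg := by
    intro D h
    show (if D ≤ D1 then U0 D else max (U0 D) ⌊V D⌋₊) = 0
    rw [if_pos (h.trans hD1)]
    exact h0.neg D h
  step := by
    intro D m hm1 hm
    have hge : ∀ D, U0 D ≤ if D ≤ D1 then U0 D else max (U0 D) ⌊V D⌋₊ := by
      intro D
      split_ifs
      · exact le_rfl
      · exact le_max_left _ _
    have hbase : m ≤ U0 D → m ≤ (if D - 1 ≤ D1 then U0 (D - 1) else max (U0 (D - 1)) ⌊V (D - 1)⌋₊) + 1 ∨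
        ∀ k, k ≤ d → ∀ j, j < k → m - j - (m + 1) / (j + 2) ≤
          if D - k + j ≤ D1 then U0 (D - k + j) else max (U0 (D - k + j)) ⌊V (D - k + j)⌋₊ := by
      intro h
      rcases h0.step D m hm1 h with h4 | h4
      · left
        exact h4.trans (Nat.add_le_add_right (hge _) 1)
      · right
        intro k hk j hj
        exact (h4 k hk j hj).trans (hge _)
    change m ≤ (if D ≤ D1 then U0 D else max (U0 D) ⌊V D⌋₊) at hm
    by_cases hD : D ≤ D1
    · rw [if_pos hD] at hm
      exact hbase hm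
    · rw [if_neg hD] at hm
      rcases le_max_iff.mp hm with h4 | h4
      · exact hbase h4
      · right
        intro k hk j hj
        show m - j - (m + 1) / (j + 2) ≤ if D - k + j ≤ D1 then U0 (D - k + j)
          else max (U0 (D - k + j)) ⌊V (D - k + j)⌋₊
        have hmV : (m : ℝ) ≤ V D := (Nat.le_floor_iff' (by omega)).mp h4
        -- compare with `k = d`
        have hjd : j < d := by omega
        have hL := open_real hmV (h2 D (by omega) j hjd) (h3 _ (by omega))
        have hle : V (D - d + j) ≤ V (D - k + j) := hmono (by omega)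
        by_cases h5 : D - k + j ≤ D1
        · rw [if_pos h5]
          have h6 := h1 (D - k + j) (by omega) h5
          exact_mod_cast hL.trans (hle.trans h6)
        · rw [if_neg h5]
          exact le_max_of_le_right (Nat.le_floor (hL.trans hle))

end Pool.Agent.GC2
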