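import Pool.Agent.Lib_helper20.GC2.Small

/-!
# MP_de0e04: tables (helper20)
-/

set_option autoImplicit false

namespace Pool.Agent.GC2

theorem run_26 : run 26 (2 * 26 ^ 2 + 30) 0 [] = true := by decide +kernel

theorem run_27 : run 27 (2 * 27 ^ 2 + 30) 0 [] = true := by decide +kernel

theorem run_28 : run 28 (2 * 28 ^ 2 + 30) 0 [] = true := by decide +kernel

theorem run_29 : run 29 (2 * 29 ^ 2 + 30) 0 [] = true := by decide +kernel

theorem run_30 : run 30 (2 * 30 ^ 2 + 30) 0 [] = true := by decide +kernel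

theorem run_31 : run 31 (2 * 31 ^ 2 + 30) 0 [] = true := by decide +kernel

end Pool.Agent.GC2
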