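import Pool.Agent.Lib_helper20.GC2.Small

/-!
# MP_de0e04: tables (helper20)
-/

set_option autoImplicit false

namespace Pool.Agent.GC2

theorem run_38 : run 38 (2 * 38 ^ 2 + 30) 0 [] = true := by decide +kernel

theorem run_39 : run 39 (2 * 39 ^ 2 + 30) 0 [] = true := by decide +kernel

end Pool.Agent.GC2
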