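import Pool.Agent.Lib_helper20.GC2.RunsA
import Pool.Agent.Lib_helper20.GC2.RunsB
import Pool.Agent.Lib_helper20.GC2.RunsC
import Pool.Agent.Lib_helper20.GC2.RunsD
import Pool.Agent.Lib_helper20.GC2.RunsE

/-!
# MP_de0e04: the tables for `d <= 39` (helper20)
-/

set_option autoImplicit false

namespace Pool.Agent.GC2

theorem runs {d : ℕ} (h1 : 1 ≤ d) (h2 : d < 40) : run d (2 * d ^ 2 + 30) 0 [] = true := by
  rcases Nat.lt_or_ge d 20 with h | h
  · exact runs_lt d h h1
  rcases Nat.lt_or_ge d 21 with h3 | h3
  · have e : d = 20 := by omega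
    rw [e]; exact run_20
  rcases Nat.lt_or_ge d 22 with h3 | h3
  · have e : d = 21 := by omega
    rw [e]; exact run_21
  rcases Nat.lt_or_ge d 23 with h3 | h3
  · have e : d = 22 := by omega
    rw [e]; exact run_22
  rcases Nat.lt_or_ge d 24 with h3 | h3
  · have e : d = 23 := by omega
    rw [e]; exact run_23
  rcases Nat.lt_or_ge d 25 with h3 | h3
  · have e : d = 24 := by omega
    rw [e]; exact run_24
  rcases Nat.lt_or_ge d 26 with h3 | h3
  · have e : d = 25 := by omega
    rw [e]; exact run_25
  rcases Nat.lt_or_ge d 27 with h3 | h3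
  · have e : d = 26 := by omega
    rw [e]; exact run_26
  rcases Nat.lt_or_ge d 28 with h3 | h3
  · have e : d = 27 := by omega
    rw [e]; exact run_27
  rcases Nat.lt_or_ge d 29 with h3 | h3
  · have e : d = 28 := by omega
    rw [e]; exact run_28
  rcases Nat.lt_or_ge d 30 with h3 | h3
  · have e : d = 29 := by omega
    rw [e]; exact run_29
  rcases Nat.lt_or_ge d 31 with h3 | h3
  · have e : d = 30 := by omega
    rw [e]; exact run_30
  rcases Nat.lt_or_ge d 32 with h3 | h3
  · have e : d = 31 := by omega
    rw [e]; exact run_31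
  rcases Nat.lt_or_ge d 33 with h3 | h3
  · have e : d = 32 := by omega
    rw [e]; exact run_32
  rcases Nat.lt_or_ge d 34 with h3 | h3
  · have e : d = 33 := by omega
    rw [e]; exact run_33
  rcases Nat.lt_or_ge d 35 with h3 | h3
  · have e : d = 34 := by omega
    rw [e]; exact run_34
  rcases Nat.lt_or_ge d 36 with h3 | h3
  · have e : d = 35 := by omega
    rw [e]; exact run_35
  rcases Nat.lt_or_ge d 37 with h3 | h3
  · have e : d = 36 := by omega
    rw [e]; exact run_36
  rcases Nat.lt_or_ge d 38 with h3 | h3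
  · have e : d = 37 := by omega
    rw [e]; exact run_37
  rcases Nat.lt_or_ge d 39 with h3 | h3
  · have e : d = 38 := by omega
    rw [e]; exact run_38
  have e : d = 39 := by omega
  rw [e]; exact run_39

end Pool.Agent.GC2
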