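import Pool.Agent.Lib_helper20.GC2.Small

/-!
# MP_de0e04: tables (helper20)
-/

set_option autoImplicit false

namespace Pool.Agent.GC2

theorem runs_lt : ∀ d < 20, 1 ≤ d → run d (2 * d ^ 2 + 30) 0 [] = true := by decide +kernel

theorem run_20 : run 20 (2 * 20 ^ 2 + 30) 0 [] = true := by decide +kernel

theorem run_21 : run 21 (2 * 21 ^ 2 + 30) 0 [] = true := by decide +kernel

theorem run_22 : run 22 (2 * 22 ^ 2 + 30) 0 [] = true := by decide +kernel

theorem run_23 : run 23 (2 * 23 ^ 2 + 30) 0 [] = true := by decide +kernel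

theorem run_24 : run 24 (2 * 24 ^ 2 + 30) 0 [] = true := by decide +kernel

theorem run_25 : run 25 (2 * 25 ^ 2 + 30) 0 [] = true := by decide +kernel

end Pool.Agent.GC2
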