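import Pool.Agent.Lib_helper20.GC2.Tab
import Pool.Agent.Lib_helper20.GC2.Exp

/-!
# MP_de0e04: the numbers for `d <= 39` (helper20)
-/

set_option autoImplicit false

namespace Pool.Agent.GC2

theorem Cnt.pos {a m n N : ℕ} (ha : 2 ≤ a) (h : Cnt a m n N) : a ≤ n := by
  by_contra hcon
  push Not at hcon
  have h1 := h.p1 ha
  have h2 := h.one
  have h3 : a * (a - 1) ≤ N * (a * (a - 1)) := Nat.le_mul_of_pos_left _ h2
  have h4 : n * (n - 1) ≤ (a - 1) * (a - 1) := Nat.mul_le_mul (by omega) (by omega)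
  have h5 : (a - 1) * (a - 1) < a * (a - 1) :=
    Nat.mul_lt_mul_of_pos_right (by omega) (by omega)
  omega

theorem small {d : ℕ} (hd : 1 ≤ d) (hrun : run d (2 * d ^ 2 + 30) 0 [] = true) {m N D : ℕ}
    (hc : Cnt (d + 1) m (D + 1 - d) N) : ∃ U, Rule d U ∧ m ≤ U D := by
  obtain ⟨h1, h2⟩ := run_spec d (2 * d ^ 2 + 30) 0 hrun
  rw [Nat.zero_add] at h1 h2
  have hpos := hc.pos (by omega)
  rcases Nat.lt_or_ge (2 * d ^ 2 + 30) D with hD | hD
  · -- the tail
    set D1 := 2 * d ^ 2 + 30 with hD1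
    have hd1 : d ≤ D1 := by nlinarith
    set r : ℝ := 1 + 4 / ((d : ℝ) + 2) ^ 2 with hr
    have hr1 : 1 ≤ r := by
      have : (0 : ℝ) ≤ 4 / ((d : ℝ) + 2) ^ 2 := by positivity
      rw [hr]
      linarith
    obtain ⟨U, hU, _, hU2⟩ := rule_exp (rule_tab d) D1 (Y := (Ut d ((D1 : ℤ) - d) : ℝ)) (B := 0)
      (Nat.cast_nonneg _) (Or.inl rfl) (by
        intro h hh
        rw [sub_zero]
        have h3 : (1 : ℝ) ≤ r ^ h := one_le_pow₀ hr1
        have h4 : (Ut d ((D1 : ℤ) - d) : ℝ) * (r ^ h)⁻¹ ≤ Ut d ((D1 : ℤ) - d) :=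
          mul_le_of_le_one_right (Nat.cast_nonneg _) (inv_le_one_of_one_le₀ h3)
        have h5 : Ut d ((D1 : ℤ) - d) ≤ Ut d ((D1 : ℤ) - h) := Ut_mono d (by omega)
        exact h4.trans (by exact_mod_cast h5)) (by rw [sub_zero]; positivity)
    refine ⟨U, hU, ?_⟩
    obtain ⟨h, rfl⟩ : ∃ h, D = D1 + h := ⟨D - D1, by omega⟩
    have hh : 1 ≤ h := by omega
    have e : ((D1 + h : ℕ) : ℤ) = (D1 : ℤ) + h := by push_cast; ring
    rw [e]
    apply hU2 h m hh
    rw [sub_zero]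
    -- growth
    have hbase : (((D1 + 1 - d : ℕ) : ℝ)) * (((D1 + 1 - d : ℕ) : ℝ) - 1) ≤
        (Ut d ((D1 : ℤ) - d) : ℝ) * d := by
      unfold fin at h2
      have h3 := Nat.le_of_ble_eq_true h2
      rw [tab_getD] at h3
      have h4 : (((D1 + 1 - d : ℕ) : ℝ)) * ((D1 - d : ℕ) : ℝ) ≤
        (Ut d ((D1 : ℤ) - d) : ℝ) * d := by exact_mod_cast h3
      have e2 : ((D1 - d : ℕ) : ℝ) = ((D1 + 1 - d : ℕ) : ℝ) - 1 := by
        rw [Nat.cast_sub hd1, Nat.cast_sub (by omega : d ≤ D1 + 1)]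
        push_cast
        ring
      rw [e2] at h4
      exact h4
    have hgrow : ∀ k : ℕ, (((D1 + 1 - d : ℕ) : ℝ) + k) * (((D1 + 1 - d : ℕ) : ℝ) + k - 1) ≤
        (Ut d ((D1 : ℤ) - d) : ℝ) * d * r ^ k := by
      intro k
      induction k with
      | zero => simpa using hbase
      | succ k ih =>
        set x : ℝ := ((D1 + 1 - d : ℕ) : ℝ) + k with hx
        have e3 : ((D1 + 1 - d : ℕ) : ℝ) + ((k + 1 : ℕ) : ℝ) = x + 1 := by
          rw [hx]
          push_cast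
          ring
        rw [e3]
        have hx1 : (2 * (d : ℝ) ^ 2 + 30) + 1 - d ≤ x := by
          rw [hx, Nat.cast_sub (by omega : d ≤ D1 + 1), hD1]
          push_cast
          linarith [Nat.cast_nonneg (α := ℝ) k]
        have hd' : (1 : ℝ) ≤ d := by exact_mod_cast hd
        have hx2 : ((d : ℝ) + 2) ^ 2 ≤ 2 * (x - 1) := by nlinarith [sq_nonneg ((d : ℝ) - 1)]
        have hp : 0 < ((d : ℝ) + 2) ^ 2 := by positivity
        have hx3 : 2 ≤ 4 / ((d : ℝ) + 2) ^ 2 * (x - 1) := by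
          rw [div_mul_eq_mul_div, le_div_iff₀ hp]
          linarith
        have hx0 : 0 < x := by nlinarith
        have h5 : (x + 1) * (x + 1 - 1) ≤ (x * (x - 1)) * r := by
          rw [hr]
          nlinarith
        calc (x + 1) * (x + 1 - 1) ≤ (x * (x - 1)) * r := h5
          _ ≤ ((Ut d ((D1 : ℤ) - d) : ℝ) * d * r ^ k) * r :=
              mul_le_mul_of_nonneg_right ih (by linarith)
          _ = _ := by rw [pow_succ]; ring
    have hg := hgrow h
    -- the count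
    have h6 := hc.le
    have h7 := hc.p1 (by omega : 2 ≤ d + 1)
    have h8 : m * d ≤ (D1 + h + 1 - d) * (D1 + h + 1 - d - 1) := by
      calc m * d ≤ (d + 1) * N * d := Nat.mul_le_mul_right _ h6
        _ = N * ((d + 1) * (d + 1 - 1)) := by rw [Nat.add_sub_cancel]; ring
        _ ≤ _ := h7
    have e4 : ((D1 + h + 1 - d : ℕ) : ℝ) = ((D1 + 1 - d : ℕ) : ℝ) + h := by
      rw [Nat.cast_sub (by omega), Nat.cast_sub (by omega)]
      push_cast
      ring
    have h9 : (m : ℝ) * d ≤ ((D1 + h + 1 - d : ℕ) : ℝ) * (((D1 + h + 1 - d : ℕ) : ℝ) - 1) := by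
      have h10 : (m : ℝ) * d ≤ ((D1 + h + 1 - d : ℕ) : ℝ) * ((D1 + h + 1 - d - 1 : ℕ) : ℝ) := by
        exact_mod_cast h8
      rw [Nat.cast_sub (by omega : 1 ≤ D1 + h + 1 - d)] at h10
      simpa using h10
    rw [e4] at h9
    have hd0 : (0 : ℝ) < d := by exact_mod_cast hd
    have h11 : (m : ℝ) * d ≤ ((Ut d ((D1 : ℤ) - d) : ℝ) * r ^ h) * d := by
      calc _ ≤ _ := h9
        _ ≤ _ := hg
        _ = _ := by ring
    exact le_of_mul_le_mul_right h11 hd0
  · refine ⟨Ut d, rule_tab d, ?_⟩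
    rcases h1 D (by omega) hD with h3 | h3
    · omega
    · exact Nat.lt_succ_iff.mp (ok_spec (by omega) h3 hc)

end Pool.Agent.GC2
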