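import Pool.Agent.Lib_helper20.GC2.FamB
import Pool.Agent.Lib_helper20.GC2.Rule

/-!
# MP_de0e04: the numbers for small `d` (helper20)
-/

set_option autoImplicit false

namespace Pool.Agent.GC2

/-- minimum over the open moves -/
def mn : ℕ → List ℕ → ℕ → ℕ
  | 0, _, acc => acc
  | _ + 1, [], acc => min acc 1
  | s + 1, w :: l, acc =>
    mn s l (bif Nat.ble (w + w / (s + 1) + (s + 1)) acc then w + w / (s + 1) + (s + 1) else acc)

/-- the next threshold -/
def nxt (d : ℕ) : List ℕ → ℕ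
  | [] => 1
  | w :: l => bif Nat.ble (mn d (w :: l) (2 * w + d + 2)) w then w + 1
      else mn d (w :: l) (2 * w + d + 2)

/-- the table `[U D, .., U 1]` -/
def tab (d : ℕ) : ℕ → List ℕ
  | 0 => []
  | D + 1 => nxt d (tab d D) :: tab d D

/-- the thresholds -/
def Ut (d : ℕ) (D : ℤ) : ℕ := (tab d D.toNat).headD 0

theorem mn_le_acc : ∀ (s : ℕ) (l : List ℕ) (acc : ℕ), mn s l acc ≤ acc
  | 0, _, acc => le_rfl
  | _ + 1, [], acc => min_le_left _ _
  | s + 1, w :: l, acc => by
    unfold mn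
    cases h : Nat.ble (w + w / (s + 1) + (s + 1)) acc
    · simpa [h] using mn_le_acc s l acc
    · have h2 := Nat.le_of_ble_eq_true h
      simpa [h] using (mn_le_acc s l _).trans h2

theorem mn_le : ∀ (s : ℕ) (l : List ℕ) (acc : ℕ) (i : ℕ), i < s →
    mn s l acc ≤ l.getD i 0 + l.getD i 0 / (s - i) + (s - i)
  | 0, _, _, i, h => absurd h (by omega)
  | s + 1, [], acc, i, h => by
    unfold mn
    have : min acc 1 ≤ 1 := min_le_right _ _
    simp
    omega
  | s + 1, w :: l, acc, i, h => by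
    unfold mn
    rcases Nat.eq_zero_or_pos i with h0 | h0
    · subst h0
      refine (mn_le_acc s l _).trans ?_
      cases h2 : Nat.ble (w + w / (s + 1) + (s + 1)) acc
      · have h3 : ¬ (w + w / (s + 1) + (s + 1)) ≤ acc := by
          intro h4
          rw [Nat.ble_eq_true_of_le h4] at h2
          exact absurd h2 (by simp)
        simp at h3 ⊢
        omega
      · simp
    · obtain ⟨i, rfl⟩ : ∃ i', i = i' + 1 := ⟨i - 1, by omega⟩
      have := mn_le s l (bif Nat.ble (w + w / (s + 1) + (s + 1)) acc then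
        w + w / (s + 1) + (s + 1) else acc) i (by omega)
      have e : s + 1 - (i + 1) = s - i := by omega
      rw [e]
      simpa using this

theorem tab_getD (d : ℕ) : ∀ D i : ℕ, (tab d D).getD i 0 = Ut d ((D : ℤ) - i)
  | 0, i => by
    have : ((0 : ℕ) : ℤ) - i = -(i : ℤ) := by simp
    rw [this]
    unfold Ut
    have h2 : (-(i : ℤ)).toNat = 0 := by omega
    rw [h2]
    simp [tab]
  | D + 1, 0 => by
    unfold Ut
    simp [tab]
  | D + 1, i + 1 => by
    have h := tab_getD d D i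
    have e : (((D + 1 : ℕ) : ℤ) - ((i + 1 : ℕ) : ℤ)) = (D : ℤ) - i := by push_cast; ring
    rw [e, ← h]
    simp [tab]

theorem Ut_succ (d D : ℕ) : Ut d ((D : ℤ) + 1) = nxt d (tab d D) := by
  unfold Ut
  have : ((D : ℤ) + 1).toNat = D + 1 := by omega
  rw [this]
  simp [tab]

theorem Ut_nat (d D : ℕ) : Ut d (D : ℤ) = (tab d D).headD 0 := by
  unfold Ut
  simp

theorem Ut_neg (d : ℕ) {D : ℤ} (h : D ≤ 0) : Ut d D = 0 := by
  unfold Ut
  have : D.toNat = 0 := by omega
  rw [this]
  simp [tab]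

theorem nxt_gt (d : ℕ) (l : List ℕ) : l.headD 0 < nxt d l := by
  cases l with
  | nil => simp [nxt]
  | cons w l =>
    unfold nxt
    cases h : Nat.ble (mn d (w :: l) (2 * w + d + 2)) w
    · simp [h]
      by_contra hcon
      push Not at hcon
      rw [Nat.ble_eq_true_of_le hcon] at h
      exact absurd h (by simp)
    · simp [h]

theorem Ut_lt (d D : ℕ) : Ut d (D : ℤ) < Ut d ((D : ℤ) + 1) := by
  rw [Ut_succ, Ut_nat]
  exact nxt_gt _ _

theorem Ut_mono (d : ℕ) : Monotone (Ut d) := by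
  apply monotone_int_of_le_succ
  intro D
  rcases lt_or_ge D 0 with h | h
  · rw [Ut_neg d h.le]
    exact Nat.zero_le _
  · obtain ⟨n, rfl⟩ := Int.eq_ofNat_of_zero_le h
    exact (Ut_lt d n).le

theorem rule_tab (d : ℕ) : Rule d (Ut d) where
  mono := Ut_mono d
  neg := fun D h => Ut_neg d h
  step := by
    intro D m hm1 hm
    rcases le_or_gt D 0 with h | h
    · rw [Ut_neg d h] at hm
      omega
    obtain ⟨n, hn⟩ : ∃ n : ℕ, D = (n : ℤ) + 1 := ⟨(D - 1).toNat, by omega⟩
    subst hn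
    rw [Ut_succ] at hm
    have e1 : (n : ℤ) + 1 - 1 = n := by ring
    rw [e1]
    -- the case of the empty list
    rcases Nat.eq_zero_or_pos n with h0 | h0
    · subst h0
      left
      simp [tab, nxt] at hm
      omega
    obtain ⟨w, l, hl⟩ : ∃ w l, tab d n = w :: l := by
      obtain ⟨n', rfl⟩ : ∃ n', n = n' + 1 := ⟨n - 1, by omega⟩
      exact ⟨_, _, rfl⟩
    have hw : Ut d (n : ℤ) = w := by
      rw [Ut_nat, hl]
      simp
    rw [hl] at hm
    change m ≤ bif Nat.ble (mn d (w :: l) (2 * w + d + 2)) w then w + 1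
      else mn d (w :: l) (2 * w + d + 2) at hm
    cases h4 : Nat.ble (mn d (w :: l) (2 * w + d + 2)) w
    · right
      rw [h4] at hm
      simp only [cond_false] at hm
      intro k hk j hj
      have h5 := mn_le d (w :: l) (2 * w + d + 2) (d - 1 - j) (by omega)
      rw [← hl, tab_getD] at h5
      have e2 : d - (d - 1 - j) = j + 1 := by omega
      rw [e2] at h5
      have e3 : (n : ℤ) - ((d - 1 - j : ℕ) : ℤ) = (n : ℤ) + 1 - d + j := by omega
      rw [e3, hl] at h5
      refine (open_exact (hm.trans h5)).trans (Ut_mono d ?_)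
      have : (k : ℤ) ≤ d := by exact_mod_cast hk
      linarith
    · left
      rw [h4] at hm
      simp only [cond_true] at hm
      rw [hw]
      exact hm

/-! ### the check -/

def b1 (n a : ℕ) : ℕ :=
  bif Nat.blt n (a ^ 2) then min ((a - 1) * n / (a ^ 2 - n)) (n * (n - 1) / (a * (a - 1)))
  else n * (n - 1) / (a * (a - 1))

def p2 (n a : ℕ) : ℕ := n * (n - 1) * (n - 2) / (a * (a - 1) * (a - 2))

def b2 (n a : ℕ) : ℕ :=
  min (p2 n a)
   (min (bif Nat.blt (2 * n) (a ^ 2) then (a - 2) * n / (a ^ 2 - 2 * n) else p2 n a)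
    (bif Nat.blt (n - 1) ((a - 1) ^ 2) then
      n * ((a - 2) * (n - 1) / ((a - 1) ^ 2 - (n - 1))) / a else p2 n a))

def ok (n a m : ℕ) : Bool :=
  Nat.blt (b1 n a) ((m + a - 1) / a) || (Nat.ble 3 a && (Nat.ble (b1 n a) m &&
    (Nat.blt ((a - 1) * b2 n a) (((m + a - 1) / a) * (m - (m + a - 1) / a)) &&
      Nat.blt ((a - 1) * b2 n a) (b1 n a * (m - b1 n a)))))

def fin (d D : ℕ) (l : List ℕ) : Bool := Nat.ble ((D + 1 - d) * (D - d)) (l.getD d 0 * d)

/-- check `k` further entries -/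
def run (d : ℕ) : ℕ → ℕ → List ℕ → Bool
  | 0, D, l => fin d D l
  | k + 1, D, l =>
    (Nat.blt (D + 1) d || ok (D + 2 - d) (d + 1) (nxt d l + 1)) && run d k (D + 1) (nxt d l :: l)

theorem run_spec (d : ℕ) : ∀ k D : ℕ, run d k D (tab d D) = true →
    (∀ D', D < D' → D' ≤ D + k → D' < d ∨ ok (D' + 1 - d) (d + 1) (Ut d (D' : ℤ) + 1) = true) ∧
      fin d (D + k) (tab d (D + k)) = true
  | 0, D, h => by
    refine ⟨fun D' h1 h2 => by omega, ?_⟩
    simpa [run] using h
  | k + 1, D, h => by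
    unfold run at h
    rw [Bool.and_eq_true] at h
    obtain ⟨h1, h2⟩ := h
    have h3 := run_spec d k (D + 1) h2
    refine ⟨?_, ?_⟩
    · intro D' hD hD'
      rcases Nat.lt_or_ge (D + 1) D' with h4 | h4
      · exact h3.1 D' h4 (by omega)
      · have e : D' = D + 1 := by omega
        subst e
        rw [Bool.or_eq_true] at h1
        rcases h1 with h5 | h5
        · left
          simpa [Nat.blt_eq] using h5
        · right
          have e2 : ((D + 1 : ℕ) : ℤ) = (D : ℤ) + 1 := by push_cast; ring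
          rw [e2, Ut_succ]
          exact h5
    · have e : D + (k + 1) = D + 1 + k := by omega
      rw [e]
      exact h3.2

theorem concave {lo hi N M c : ℕ} (h1 : lo ≤ N) (h2 : N ≤ hi) (h3 : hi ≤ M)
    (h4 : c < lo * (M - lo)) (h5 : c < hi * (M - hi)) : c < N * (M - N) := by
  obtain ⟨x, hx⟩ := Nat.exists_eq_add_of_le h1
  obtain ⟨y, hy⟩ := Nat.exists_eq_add_of_le h2
  obtain ⟨z, hz⟩ := Nat.exists_eq_add_of_le h3
  have e1 : M - lo = x + y + z := by omega
  have e2 : M - hi = z := by omega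
  have e3 : M - N = y + z := by omega
  rw [e1] at h4
  rw [e2] at h5
  rw [e3]
  subst hx
  rw [show hi = lo + x + y by omega] at h5
  -- `N = lo + x`
  rcases Nat.lt_or_ge (y + z) lo with h6 | h6
  · -- `(lo + x)(y + z) >= (lo + x + y) z`
    have : (lo + x + y) * z ≤ (lo + x) * (y + z) := by nlinarith [Nat.zero_le x, Nat.zero_le y]
    omega
  · have : lo * (x + y + z) ≤ (lo + x) * (y + z) := by nlinarith [Nat.zero_le x, Nat.zero_le y]
    omega

theorem Cnt.le_b1 {a m n N : ℕ} (h : Cnt a m n N) (ha : 2 ≤ a) : N ≤ b1 n a := by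
  have e1 : 0 < a * (a - 1) := Nat.mul_pos (by omega) (by omega)
  have h1 : N ≤ n * (n - 1) / (a * (a - 1)) := (Nat.le_div_iff_mul_le e1).mpr (h.p1 ha)
  unfold b1
  cases h2 : Nat.blt n (a ^ 2)
  · simpa using h1
  · have h3 : n < a ^ 2 := by simpa [Nat.blt_eq] using h2
    simp only [cond_true]
    refine le_min ?_ h1
    rw [Nat.le_div_iff_mul_le (by omega)]
    have := h.sm1 ha h3
    rw [mul_comm (a - 1)]
    exact this

theorem fam_le_b2 {a n M : ℕ} (h : Fam n a 2 M) (ha : 3 ≤ a) (hn : 1 ≤ n) : M ≤ b2 n a := by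
  have e1 : 0 < a * (a - 1) * (a - 2) :=
    Nat.mul_pos (Nat.mul_pos (by omega) (by omega)) (by omega)
  have h1 : M ≤ p2 n a := (Nat.le_div_iff_mul_le e1).mpr (fam_p2 h)
  unfold b2
  refine le_min h1 (le_min ?_ ?_)
  · cases h2 : Nat.blt (2 * n) (a ^ 2)
    · simpa using h1
    · have h3 : 2 * n < a ^ 2 := by simpa [Nat.blt_eq] using h2
      simp only [cond_true]
      rw [Nat.le_div_iff_mul_le (by omega), mul_comm (a - 2)]
      exact fam_sm2 h (by omega) h3
  · cases h2 : Nat.blt (n - 1) ((a - 1) ^ 2)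
    · simpa using h1
    · have h3 : n - 1 < (a - 1) ^ 2 := by simpa [Nat.blt_eq] using h2
      simp only [cond_true]
      obtain ⟨M', h4, h5⟩ := fam_j2 h (by omega) hn h3
      rw [Nat.le_div_iff_mul_le (by omega)]
      refine h4.trans (Nat.mul_le_mul_left _ ?_)
      rw [Nat.le_div_iff_mul_le (by omega), mul_comm (a - 2)]
      exact h5

theorem ok_spec {a m n N M : ℕ} (ha : 2 ≤ a) (hok : ok n a M = true) (h : Cnt a m n N) :
    m < M := by
  by_contra hcon
  push Not at hcon
  have hN := h.le_b1 ha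
  have hlo : (M + a - 1) / a ≤ N := by
    rw [Nat.div_le_iff_le_mul_add_pred (by omega)]
    have := h.le
    omega
  have hn : 1 ≤ n := by
    by_contra h0
    have h1 := h.p1 ha
    have h2 : n = 0 := by omega
    subst h2
    have h3 := h.one
    have h4 : 0 < N * (a * (a - 1)) :=
      Nat.mul_pos (by omega) (Nat.mul_pos (by omega) (by omega))
    omega
  unfold ok at hok
  rw [Bool.or_eq_true] at hok
  rcases hok with h1 | h1
  · have : b1 n a < (M + a - 1) / a := by simpa [Nat.blt_eq] using h1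
    omega
  · rw [Bool.and_eq_true, Bool.and_eq_true, Bool.and_eq_true] at h1
    obtain ⟨h2, h3, h4, h5⟩ := h1
    have h2' : 3 ≤ a := Nat.le_of_ble_eq_true h2
    have h3' : b1 n a ≤ M := Nat.le_of_ble_eq_true h3
    have h4' : (a - 1) * b2 n a < ((M + a - 1) / a) * (M - (M + a - 1) / a) := by
      simpa [Nat.blt_eq] using h4
    have h5' : (a - 1) * b2 n a < b1 n a * (M - b1 n a) := by simpa [Nat.blt_eq] using h5
    have h6 := concave hlo hN h3' h4' h5'
    obtain ⟨M2, h7, h8⟩ := h.two h2'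
    have h9 := fam_le_b2 h8 h2' hn
    have h10 : N * (M - N) ≤ N * (m - N) := Nat.mul_le_mul_left _ (by omega)
    have h11 : M2 * (a - 1) ≤ (a - 1) * b2 n a := by
      rw [mul_comm]
      exact Nat.mul_le_mul_left _ h9
    omega

end Pool.Agent.GC2
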